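import Pool.Agent.H74.G.R_seed8.W564.SC.Defs

/-!
# Small fields with prescribed derivatives at finitely many points
-/

set_option autoImplicit false
set_option linter.unusedSectionVars false

open scoped Manifold ContDiff Topology
open Filter Set Metric

namespace Pool.Agent.K4H47.RH

open Pool.Agent.H718R2.G Pool.Agent.W564.SC

/-- the model field `y ↦ β(y) y` -/
noncomputable def gam (n : ℕ) (y : V n) : V n :=
  ((⟨1 / 8, 1 / 4, by norm_num, by norm_num⟩ : ContDiffBump (0 : V n)) y) • y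

theorem gam_smooth (n : ℕ) : ContDiff ℝ ∞ (gam n) :=
  (ContDiffBump.contDiff _).smul contDiff_id

theorem gam_near {n : ℕ} {y : V n} (hy : ‖y‖ ≤ 1 / 8) : gam n y = y := by
  unfold gam
  rw [ContDiffBump.one_of_mem_closedBall, one_smul]
  rw [mem_closedBall, dist_zero_right]
  exact hy

theorem gam_far {n : ℕ} {y : V n} (hy : 1 / 4 ≤ ‖y‖) : gam n y = 0 := by
  unfold gam
  rw [ContDiffBump.zero_of_le_dist, zero_smul]
  rw [dist_zero_right]
  exact hy

theorem gam_bound (n k : ℕ) : ∃ C : ℝ, 0 < C ∧ ∀ j ≤ k, ∀ y, ‖iteratedFDeriv ℝ j (gam n) y‖ ≤ C := by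
  have hbd : ∀ j : ℕ, ∃ C : ℝ, ∀ x : V n, ‖iteratedFDeriv ℝ j (gam n) x‖ ≤ C := by
    intro j
    have hc : Continuous (iteratedFDeriv ℝ j (gam n)) :=
      (gam_smooth n).continuous_iteratedFDeriv (by exact_mod_cast le_top)
    have hs : HasCompactSupport (gam n) := by
      refine HasCompactSupport.intro (isCompact_closedBall (0 : V n) (1 / 4)) fun x hx => ?_
      apply gam_far
      rw [mem_closedBall, dist_zero_right, not_le] at hx
      exact hx.le
    exact hc.bounded_above_of_compact_support (hs.iteratedFDeriv j)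
  choose C hC using hbd
  have hC0 : ∀ j, 0 ≤ C j := fun j => (norm_nonneg _).trans (hC j 0)
  refine ⟨1 + ∑ j ∈ Finset.range (k + 1), C j, ?_, fun j hj y => ?_⟩
  · have := Finset.sum_nonneg (fun j (_ : j ∈ Finset.range (k + 1)) => hC0 j)
    linarith
  · have := Finset.single_le_sum (fun i (_ : i ∈ Finset.range (k + 1)) => hC0 i)
      (Finset.mem_range.2 (Nat.lt_succ_of_le hj))
    linarith [hC j y]

/-- one term -/
noncomputable def term {n : ℕ} (v : V n) (r : ℝ) (B : V n →L[ℝ] V n) (x : V n) : V n :=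
  (r • B) (gam n ((r⁻¹ • ContinuousLinearMap.id ℝ (V n)) (x - v)))

theorem term_smooth {n : ℕ} (v : V n) (r : ℝ) (B : V n →L[ℝ] V n) : ContDiff ℝ ∞ (term v r B) :=
  (r • B).contDiff.comp ((gam_smooth n).comp
    ((r⁻¹ • ContinuousLinearMap.id ℝ (V n)).contDiff.comp (contDiff_id.sub contDiff_const)))

theorem term_arg {n : ℕ} (v x : V n) {r : ℝ} (hr : 0 < r) :
    ‖(r⁻¹ • ContinuousLinearMap.id ℝ (V n)) (x - v)‖ = ‖x - v‖ / r := by
  simp only [smul_apply, ContinuousLinearMap.id_apply, norm_smul, norm_inv,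
    Real.norm_of_nonneg hr.le]
  rw [div_eq_inv_mul]

theorem term_near {n : ℕ} {v x : V n} {r : ℝ} (hr : 0 < r) (B : V n →L[ℝ] V n)
    (hx : ‖x - v‖ ≤ r / 8) : term v r B x = B (x - v) := by
  unfold term
  rw [gam_near]
  · simp only [smul_apply, ContinuousLinearMap.id_apply, map_smul]
    rw [smul_smul, inv_mul_cancel₀ hr.ne', one_smul]
  · rw [term_arg v x hr, div_le_iff₀ hr]
    linarith

theorem term_far {n : ℕ} {v x : V n} {r : ℝ} (hr : 0 < r) (B : V n →L[ℝ] V n)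
    (hx : r / 4 ≤ ‖x - v‖) : term v r B x = 0 := by
  unfold term
  rw [gam_far, map_zero]
  rw [term_arg v x hr, le_div_iff₀ hr]
  linarith

theorem term_bound {n k : ℕ} (hk : 1 ≤ k) {C : ℝ} (hC0 : 0 < C)
    (hC : ∀ j ≤ k, ∀ y, ‖iteratedFDeriv ℝ j (gam n) y‖ ≤ C) {v : V n} {r : ℝ} (hr : 0 < r)
    (hr1 : r ≤ 1) {B : V n →L[ℝ] V n} {ε : ℝ} (hε : 0 ≤ ε) (hB : ‖B‖ ≤ ε * r ^ (k - 1)) {j : ℕ}
    (hj : j ≤ k) (x : V n) : ‖iteratedFDeriv ℝ j (term v r B) x‖ ≤ C * ε := by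
  set M : V n →L[ℝ] V n := r⁻¹ • ContinuousLinearMap.id ℝ (V n) with hM
  have hnM : ‖M‖ ≤ r⁻¹ := by
    refine ContinuousLinearMap.opNorm_le_bound _ (inv_nonneg.2 hr.le) (fun x => ?_)
    simp only [hM, smul_apply, ContinuousLinearMap.id_apply, norm_smul,
      norm_inv, Real.norm_of_nonneg hr.le]
    exact le_rfl
  have e1 : term v r B = fun x => ((r • B) ∘ (gam n ∘ M)) (x - v) := by
    funext x
    rfl
  rw [e1, iteratedFDeriv_comp_sub' j v]
  have hcomp : ContDiff ℝ ∞ (gam n ∘ M) := (gam_smooth n).comp M.contDiff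
  have h1 : ‖iteratedFDeriv ℝ j ((r • B) ∘ (gam n ∘ M)) (x - v)‖ ≤
      ‖r • B‖ * ‖iteratedFDeriv ℝ j (gam n ∘ M) (x - v)‖ := by
    apply (r • B).norm_iteratedFDeriv_comp_left (hcomp.contDiffAt (x := x - v))
    exact_mod_cast le_top
  have h2 : ‖iteratedFDeriv ℝ j (gam n ∘ M) (x - v)‖ ≤ C * (r⁻¹) ^ j := by
    rw [M.iteratedFDeriv_comp_right (gam_smooth n) (x - v) (by exact_mod_cast le_top)]
    refine (ContinuousMultilinearMap.norm_compContinuousLinearMap_le _ _).trans ?_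
    rw [Finset.prod_const, Finset.card_univ, Fintype.card_fin]
    exact mul_le_mul (hC j hj _) (pow_le_pow_left₀ (norm_nonneg _) hnM j)
      (pow_nonneg (norm_nonneg _) _) hC0.le
  have h3 : ‖r • B‖ ≤ r * (ε * r ^ (k - 1)) := by
    rw [norm_smul, Real.norm_of_nonneg hr.le]
    exact mul_le_mul_of_nonneg_left hB hr.le
  have h4 : r * (ε * r ^ (k - 1)) = ε * r ^ k := by
    obtain ⟨l, rfl⟩ : ∃ l, k = l + 1 := ⟨k - 1, by omega⟩
    rw [Nat.add_sub_cancel, pow_succ]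
    ring
  have h5 : r ^ k * (r⁻¹) ^ j ≤ 1 := by
    rw [inv_pow, ← div_eq_mul_inv, div_le_one (pow_pos hr j)]
    exact pow_le_pow_of_le_one hr.le hr1 hj
  calc ‖iteratedFDeriv ℝ j ((r • B) ∘ (gam n ∘ M)) (x - v)‖
      ≤ ‖r • B‖ * ‖iteratedFDeriv ℝ j (gam n ∘ M) (x - v)‖ := h1
    _ ≤ (ε * r ^ k) * (C * (r⁻¹) ^ j) := by
        rw [← h4]
        exact mul_le_mul h3 h2 (norm_nonneg _) (by rw [h4]; positivity)
    _ = C * ε * (r ^ k * (r⁻¹) ^ j) := by ring
    _ ≤ C * ε * 1 := mul_le_mul_of_nonneg_left h5 (by positivity)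
    _ = C * ε := mul_one _

/-- Fields with prescribed derivatives at finitely many points. -/
theorem field (n k : ℕ) (hk : 1 ≤ k) : ∃ C : ℝ, 0 < C ∧ ∀ (P : Finset (V n)) (r : V n → ℝ)
    (B : V n → V n →L[ℝ] V n) (ε : ℝ), 0 ≤ ε → (∀ v ∈ P, 0 < r v ∧ r v ≤ 1) →
    (∀ v ∈ P, ‖v‖ ≤ 1 / 4) → (∀ v ∈ P, ∀ w ∈ P, v ≠ w → r v ≤ ‖v - w‖) →
    (∀ v ∈ P, ‖B v‖ ≤ ε * r v ^ (k - 1)) →
    ∃ u : V n → V n, Small n k (C * ε) u ∧ (∀ v ∈ P, ∀ x, ‖x - v‖ ≤ r v / 8 → u x = B v (x - v)) ∧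
      ∀ x, (∀ v ∈ P, r v / 4 ≤ ‖x - v‖) → u x = 0 := by
  obtain ⟨C, hC0, hC⟩ := gam_bound n k
  refine ⟨C, hC0, fun P r B ε hε hr hP hsep hB => ?_⟩
  set u : V n → V n := fun x => ∑ v ∈ P, term v (r v) (B v) x with hu
  -- disjointness
  have hdis : ∀ v ∈ P, ∀ w ∈ P, w ≠ v → ∀ x, ‖x - v‖ < r v / 2 → r w / 2 < ‖x - w‖ := by
    intro v hv w hw hvw x hx
    have h1 := hsep v hv w hw hvw.symm
    have h2 := hsep w hw v hv hvw
    have h3 : ‖v - w‖ ≤ ‖x - v‖ + ‖x - w‖ := by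
      have := norm_sub_le (x - w) (x - v)
      rw [sub_sub_sub_cancel_left] at this
      linarith
    have h4 : ‖w - v‖ = ‖v - w‖ := norm_sub_rev _ _
    linarith
  have hone : ∀ v ∈ P, ∀ x, ‖x - v‖ < r v / 2 → u x = term v (r v) (B v) x := by
    intro v hv x hx
    refine Finset.sum_eq_single v (fun w hw hwv => ?_) (fun h => absurd hv h)
    exact term_far (hr w hw).1 _ (by linarith [hdis v hv w hw hwv x hx, (hr w hw).1])
  have hzero : ∀ x, (∀ v ∈ P, r v / 4 ≤ ‖x - v‖) → u x = 0 := by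
    intro x hx
    exact Finset.sum_eq_zero fun v hv => term_far (hr v hv).1 _ (hx v hv)
  refine ⟨u, ⟨?_, ?_, ?_⟩, ?_, hzero⟩
  · exact ContDiff.sum fun v _ => term_smooth v (r v) (B v)
  · intro x hx
    refine hzero x fun v hv => ?_
    have h1 : ‖x‖ ≤ ‖x - v‖ + ‖v‖ := by
      have := norm_add_le (x - v) v
      rwa [sub_add_cancel] at this
    have h2 := hP v hv
    have h3 := (hr v hv).2
    linarith
  · intro j hj x
    by_cases hx : ∃ v ∈ P, ‖x - v‖ < r v / 2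
    · obtain ⟨v, hv, hxv⟩ := hx
      have h1 : u =ᶠ[𝓝 x] term v (r v) (B v) := by
        have h2 : Continuous fun y : V n => ‖y - v‖ := by fun_prop
        filter_upwards [h2.continuousAt.eventually (gt_mem_nhds hxv)] with y hy
        exact hone v hv y hy
      rw [(h1.iteratedFDeriv ℝ j).eq_of_nhds]
      exact term_bound hk hC0 hC (hr v hv).1 (hr v hv).2 hε (hB v hv) hj x
    · push Not at hx
      have h1 : u =ᶠ[𝓝 x] fun _ => 0 := by
        have h2 : ∀ᶠ y in 𝓝 x, ∀ v ∈ P, r v / 4 ≤ ‖y - v‖ := by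
          rw [Filter.eventually_all_finset]
          intro v hv
          have h3 : Continuous fun y : V n => ‖y - v‖ := by fun_prop
          have h4 : r v / 4 < ‖x - v‖ := by linarith [hx v hv, (hr v hv).1]
          exact (h3.continuousAt.eventually (lt_mem_nhds h4)).mono fun y hy => le_of_lt hy
        filter_upwards [h2] with y hy
        exact hzero y hy
      rw [(h1.iteratedFDeriv ℝ j).eq_of_nhds]
      have h5 : iteratedFDeriv ℝ j (fun _ : V n => (0 : V n)) x = 0 := by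
        rw [iteratedFDeriv_fun_zero]
        rfl
      rw [h5, norm_zero]
      positivity
  · intro v hv x hx
    rw [hone v hv x (by linarith [(hr v hv).1]), term_near (hr v hv).1 _ hx]

end Pool.Agent.K4H47.RH
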