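import Pool.Agent.H74.G.R_pool_sql_team_seeded_c8625f6e.K4H47.RH.Sb

/-!
# Consequences: multipliers and angles
-/

set_option autoImplicit false
set_option linter.unusedSectionVars false

open scoped Manifold ContDiff Topology RealInnerProductSpace
open Filter Set Metric

universe u

namespace Pool.Agent.K4H47.RH

open Pool.Agent.H718R2.G

section alg

variable {n : ℕ}

theorem root_smul (A : V n →L[ℝ] V n) (c : ℝ) {lam : ℂ}
    (h : ((LinearMap.charpoly (A : V n →ₗ[ℝ] V n)).map (algebraMap ℝ ℂ)).IsRoot lam) :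
    ((LinearMap.charpoly ((c • A : V n →L[ℝ] V n) : V n →ₗ[ℝ] V n)).map
      (algebraMap ℝ ℂ)).IsRoot ((c : ℂ) * lam) := by
  set b := (EuclideanSpace.basisFun (Fin n) ℝ).toBasis with hb
  rw [← LinearMap.charpoly_toMatrix _ b, ← Matrix.charpoly_map, Polynomial.IsRoot.def,
    Matrix.eval_charpoly] at h ⊢
  have e1 : ((LinearMap.toMatrix b b) ((c • A : V n →L[ℝ] V n) : V n →ₗ[ℝ] V n)).map
      (algebraMap ℝ ℂ) = (c : ℂ) • ((LinearMap.toMatrix b b) (A : V n →ₗ[ℝ] V n)).map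
      (algebraMap ℝ ℂ) := by
    have e2 : ((c • A : V n →L[ℝ] V n) : V n →ₗ[ℝ] V n) = c • (A : V n →ₗ[ℝ] V n) := rfl
    rw [e2, map_smul]
    ext i j
    simp
  rw [e1]
  have e3 : Matrix.scalar (Fin n) ((c : ℂ) * lam) = (c : ℂ) • Matrix.scalar (Fin n) lam := by
    ext i j
    simp [Matrix.scalar_apply, Matrix.diagonal_apply]
  rw [e3, ← smul_sub, Matrix.det_smul, h, mul_zero]

theorem root_ne_zero {A : V n →L[ℝ] V n} (hA : Function.Injective A) {lam : ℂ}
    (h : ((LinearMap.charpoly (A : V n →ₗ[ℝ] V n)).map (algebraMap ℝ ℂ)).IsRoot lam) :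
    lam ≠ 0 := by
  rintro rfl
  have h1 : (LinearMap.charpoly (A : V n →ₗ[ℝ] V n)).IsRoot 0 := by
    rw [Polynomial.IsRoot.def] at h ⊢
    have h2 : ((LinearMap.charpoly (A : V n →ₗ[ℝ] V n)).map (algebraMap ℝ ℂ)).eval
        (algebraMap ℝ ℂ 0) = algebraMap ℝ ℂ ((LinearMap.charpoly (A : V n →ₗ[ℝ] V n)).eval 0) :=
      Polynomial.eval_map_apply _ _
    rw [map_zero, h] at h2
    have h3 := h2.symm
    rwa [map_eq_zero] at h3
  have h2 := (Module.End.hasEigenvalue_iff_isRoot_charpoly (A : V n →ₗ[ℝ] V n) 0).2 h1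
  obtain ⟨v, hv⟩ := h2.exists_hasEigenvector
  have h3 : A v = 0 := by
    have := hv.apply_eq_smul
    rwa [zero_smul] at this
  exact hv.2 (hA (by rw [h3, map_zero]))

theorem not_hyp {A : V n →L[ℝ] V n} {v : V n} (hv : v ≠ 0) {s : ℝ} (hs : |s| = 1)
    (h : A v = s • v) : ¬ IsHypMap A := by
  intro hA
  have h1 : Module.End.HasEigenvalue (A : V n →ₗ[ℝ] V n) s :=
    Module.End.hasEigenvalue_of_hasEigenvector ⟨Module.End.mem_eigenspace_iff.2 h, hv⟩
  have h2 := (Module.End.hasEigenvalue_iff_isRoot_charpoly (A : V n →ₗ[ℝ] V n) s).1 h1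
  have h3 := h2.map (f := algebraMap ℝ ℂ)
  refine hA _ h3 ?_
  simpa using hs

theorem pprod_track {A : ℕ → V n →L[ℝ] V n} {z : ℕ → V n} {m : ℕ}
    (h : ∀ i < m, z (i + 1) = A i (z i)) : pprod A m (z 0) = z m := by
  induction m with
  | zero => rfl
  | succ m ih =>
    have h1 := ih fun i hi => h i (by omega)
    show A m (pprod A m (z 0)) = z (m + 1)
    rw [h1, h m (by omega)]

theorem pprod_scal (A : ℕ → V n →L[ℝ] V n) (t : ℕ → ℝ) (m : ℕ) :
    pprod (fun i => (ContinuousLinearMap.id ℝ (V n) +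
      (Real.exp (t (i + 1)) - 1) • ContinuousLinearMap.id ℝ (V n)).comp (A i)) m =
      Real.exp (∑ i ∈ Finset.range m, t (i + 1)) • pprod A m := by
  induction m with
  | zero =>
    show ContinuousLinearMap.id ℝ (V n) = _
    simp [pprod]
  | succ m ih =>
    show ((ContinuousLinearMap.id ℝ (V n) + (Real.exp (t (m + 1)) - 1) •
      ContinuousLinearMap.id ℝ (V n)).comp (A m)).comp (pprod _ m) =
      Real.exp (∑ i ∈ Finset.range (m + 1), t (i + 1)) • ((A m).comp (pprod A m))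
    rw [ih, Finset.sum_range_succ, Real.exp_add]
    ext1 x
    simp only [ContinuousLinearMap.comp_apply, add_apply, smul_apply,
      ContinuousLinearMap.id_apply, map_smul, smul_smul, sub_smul, one_smul]
    module

theorem sum_shift {m : ℕ} (f : ℕ → ℝ) (h : f m = f 0) :
    ∑ i ∈ Finset.range m, f (i + 1) = ∑ i ∈ Finset.range m, f i := by
  have h1 := Finset.sum_range_succ' f m
  have h2 := Finset.sum_range_succ f m
  linarith

end alg

variable {n : ℕ} {N : Type u} [TopologicalSpace N] [T2Space N] [CompactSpace N]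
    [ChartedSpace (V n) N] [IsManifold (𝓡 n) ∞ N]

/-- small perturbations of the derivatives along the orbit of `p` are hyperbolic -/
def PertHyp (n : ℕ) {N : Type u} [TopologicalSpace N] [ChartedSpace (V n) N] {q : ℕ} (e : N → V q) (G : N → N) (p : N) (m k : ℕ) (c : ℝ) (ρ : N → ℝ) : Prop :=
  ∀ B : N → V n →L[ℝ] V n,
    (∀ x ∈ orb G p, ∀ v, ‖DE n e x (B x v)‖ ≤ c * ρ x ^ (k - 1) * ‖DE n e x v‖) →
    IsHypMap (pprod (fun i => (ContinuousLinearMap.id ℝ (V n) + B (G^[i + 1] p)).comp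
      (DN n G (G^[i] p))) m)

theorem DN_inj {r : ℕ∞} (hr : 1 ≤ r) (G : DiffM n N r) (x : N) :
    Function.Injective (DN n G x) := by
  have h1 : DN n (G.symm ∘ G) x = (DN n G.symm (G x)).comp (DN n G x) :=
    DN_comp (diff_md hr G.symm _) (diff_md hr G _)
  have h2 : DN n (G.symm ∘ G) x = ContinuousLinearMap.id ℝ (V n) :=
    DN_id_near (Eventually.of_forall fun z => G.symm_apply_apply z)
  rw [h2] at h1
  intro a b hab
  have h3 := fun w : V n => congrArg (fun A : V n →L[ℝ] V n => A w) h1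
  simp only [ContinuousLinearMap.comp_apply, ContinuousLinearMap.id_apply] at h3
  rw [h3 a, h3 b, hab]

theorem DN_iter_inj {r : ℕ∞} (hr : 1 ≤ r) (G : DiffM n N r) (l : ℕ) (x : N) :
    Function.Injective (DN n (G^[l]) x) := by
  induction l with
  | zero =>
    rw [DN_iter_zero]
    exact fun a b h => h
  | succ l ih =>
    rw [DN_iter_succ hr]
    exact (DN_inj hr G _).comp ih

/-- the multipliers -/
theorem multipliers {r : ℕ∞} (hr : 1 ≤ r) {q : ℕ} {e : N → V q} {G : DiffM n N r} {p : N}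
    {m k : ℕ} {c : ℝ} (hc : 0 < c) (hmp : G^[m] p = p) {ρ : N → ℝ}
    (hρ : Radii e (orb G p) ρ) (h : PertHyp n e G p m k c ρ) {lam : ℂ}
    (hl : ((LinearMap.charpoly (DN n (G^[m]) p : V n →ₗ[ℝ] V n)).map
      (algebraMap ℝ ℂ)).IsRoot lam) :
    min c 1 / 2 * ∑ i ∈ Finset.range m, ρ (G^[i] p) ^ (k - 1) ≤ |Real.log ‖lam‖| := by
  by_contra hcon
  push Not at hcon
  set c₁ : ℝ := min c 1 / 2 with hc₁
  have hc₁0 : 0 < c₁ := by
    have : 0 < min c 1 := lt_min hc one_pos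
    positivity
  have hc₁c : 2 * c₁ ≤ c := by
    rw [hc₁]
    linarith [min_le_left c 1]
  have hc₁1 : c₁ ≤ 1 / 2 := by
    rw [hc₁]
    linarith [min_le_right c 1]
  set S : ℝ := c₁ * ∑ i ∈ Finset.range m, ρ (G^[i] p) ^ (k - 1) with hS
  have hS0 : 0 < S := lt_of_le_of_lt (abs_nonneg _) hcon
  set s : ℝ := -Real.log ‖lam‖ / S with hs
  have hs1 : |s| ≤ 1 := by
    rw [hs, abs_div, abs_neg, abs_of_pos hS0, div_le_one hS0]
    exact hcon.le
  set t : N → ℝ := fun x => s * (c₁ * ρ x ^ (k - 1)) with ht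
  have hlam : lam ≠ 0 := root_ne_zero (DN_iter_inj hr G m p) hl
  have hpos : 0 < ‖lam‖ := norm_pos_iff.2 hlam
  have h1 := h (fun x => (Real.exp (t x) - 1) • ContinuousLinearMap.id ℝ (V n)) (by
    intro x hx v
    have hp := hρ.pos x hx
    have h1 := hρ.le_one x hx
    have h2 : ρ x ^ (k - 1) ≤ 1 := pow_le_one₀ hp.le h1
    have h3 : 0 < ρ x ^ (k - 1) := by positivity
    have h4 : |t x| ≤ c₁ * ρ x ^ (k - 1) := by
      rw [ht]
      simp only
      rw [abs_mul, abs_of_pos (mul_pos hc₁0 h3)]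
      exact mul_le_of_le_one_left (by positivity) hs1
    have h5 : c₁ * ρ x ^ (k - 1) ≤ 1 := by nlinarith
    have h6 := Real.abs_exp_sub_one_le (h4.trans h5)
    simp only [smul_apply, ContinuousLinearMap.id_apply, map_smul, norm_smul, Real.norm_eq_abs]
    refine mul_le_mul_of_nonneg_right ?_ (norm_nonneg _)
    nlinarith)
  rw [pprod_scal (fun i => DN n G (G^[i] p)) (fun i => t (G^[i] p)) m, ← DN_iter hr] at h1
  have h2 := root_smul (DN n (G^[m]) p)
    (Real.exp (∑ i ∈ Finset.range m, t (G^[i + 1] p))) hl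
  refine h1 _ h2 ?_
  have h3 : ∑ i ∈ Finset.range m, t (G^[i + 1] p) = -Real.log ‖lam‖ := by
    rw [sum_shift (fun i => t (G^[i] p)) (by
      show t (G^[m] p) = t (G^[0] p)
      rw [hmp]
      rfl)]
    simp only [ht]
    rw [← Finset.mul_sum, ← Finset.mul_sum, ← hS, hs, div_mul_cancel₀ _ hS0.ne']
  rw [h3, norm_mul, Complex.norm_real, Real.norm_eq_abs, abs_of_pos (Real.exp_pos _), Real.exp_neg,
    Real.exp_log hpos, inv_mul_cancel₀ hpos.ne']

/-- the angle between two eigenvectors -/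
theorem angle {r : ℕ∞} (hr : 1 ≤ r) {q : ℕ} {e : N → V q} {G : DiffM n N r} {p : N}
    {m k : ℕ} {c : ℝ} (hc : 0 < c) (hm : IsMinPer G p m) {ρ : N → ℝ}
    (hρ : Radii e (orb G p) ρ) (h : PertHyp n e G p m k c ρ) {v w : V n} {a b : ℝ}
    (hv : DN n (G^[m]) p v = a • v) (hw : DN n (G^[m]) p w = b • w) (ha : |a| < 1) (hb : 1 < |b|)
    (hv1 : ‖DE n e p v‖ = 1) (hw1 : ‖DE n e p w‖ = 1) :
    min c 1 / 2 * ρ p ^ (k - 1) ≤ ‖DE n e p v - DE n e p w‖ := by
  classical
  by_contra hcon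
  push Not at hcon
  set c₁ : ℝ := min c 1 / 2 with hc₁
  have hc₁0 : 0 < c₁ := by
    have : 0 < min c 1 := lt_min hc one_pos
    positivity
  have hc₁c : 2 * c₁ ≤ c := by
    rw [hc₁]
    linarith [min_le_left c 1]
  have hc₁1 : c₁ ≤ 1 / 2 := by
    rw [hc₁]
    linarith [min_le_right c 1]
  have hpo : p ∈ orb G p := ⟨0, rfl⟩
  have hρp := hρ.pos p hpo
  have hρk : 0 < ρ p ^ (k - 1) := by positivity
  have hρ1 : ρ p ^ (k - 1) ≤ 1 := pow_le_one₀ hρp.le (hρ.le_one p hpo)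
  set X : V q := DE n e p v with hX
  set Y : V q := DE n e p w with hY
  -- sign
  obtain ⟨s, hs, hsb⟩ : ∃ s : ℝ, |s| = 1 ∧ s * b = |b| := by
    rcases le_total 0 b with h0 | h0
    · exact ⟨1, by simp, by rw [one_mul, abs_of_nonneg h0]⟩
    · exact ⟨-1, by simp, by rw [abs_of_nonpos h0]; ring⟩
  have hss : s * s = 1 := by
    rw [← abs_mul_abs_self, hs, one_mul]
  set a' : ℝ := s * a with ha'
  set b' : ℝ := |b| with hb'
  have ha'1 : |a'| < 1 := by rw [ha', abs_mul, hs, one_mul]; exact ha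
  obtain ⟨ha'l, ha'r⟩ := abs_lt.1 ha'1
  have h1a : 0 < 1 - a' := by linarith
  have h1b : 0 < b' - 1 := by linarith
  -- the vector
  set x : V n := (1 - a')⁻¹ • v + (b' - 1)⁻¹ • w with hx
  set y : V n := (a' / (1 - a')) • v + (b' / (b' - 1)) • w with hy
  have hxy : x - y = v - w := by
    rw [hx, hy]
    have e1 : (1 - a')⁻¹ - a' / (1 - a') = 1 := by field_simp
    have e2 : (b' - 1)⁻¹ - b' / (b' - 1) = -1 := by
      field_simp
      ring
    calc (1 - a')⁻¹ • v + (b' - 1)⁻¹ • w - ((a' / (1 - a')) • v + (b' / (b' - 1)) • w)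
        = ((1 - a')⁻¹ - a' / (1 - a')) • v + ((b' - 1)⁻¹ - b' / (b' - 1)) • w := by module
      _ = v - w := by rw [e1, e2]; module
  have hDx : DN n (G^[m]) p x = s • y := by
    rw [hx, hy, map_add, map_smul, map_smul, hv, hw, smul_add, smul_smul, smul_smul, smul_smul,
      smul_smul]
    have e1 : a = s * a' := by rw [ha', ← mul_assoc, hss, one_mul]
    have e2 : b = s * b' := by rw [← hsb, ← mul_assoc, hss, one_mul]
    congr 2
    · rw [div_eq_mul_inv, e1]
      ring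
    · rw [div_eq_mul_inv, e2]
      ring
  set Z : V q := DE n e p y with hZ
  have hZe : Z = (a' / (1 - a')) • X + (b' / (b' - 1)) • Y := by
    rw [hZ, hy, map_add, map_smul, map_smul]
  have hinner : ⟪X, Y⟫ = 1 - ‖X - Y‖ ^ 2 / 2 := by
    have h1 := norm_sub_sq_real X Y
    rw [hv1, hw1] at h1
    linarith
  have hXY : ‖X - Y‖ ≤ 1 / 2 := by nlinarith
  have hin0 : 0 ≤ ⟪X, Y⟫ := by
    rw [hinner]
    nlinarith [norm_nonneg (X - Y)]
  have hin1 : ⟪X, Y⟫ ≤ 1 := by
    rw [hinner]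
    nlinarith [norm_nonneg (X - Y)]
  have hZn : 1 / 2 ≤ ‖Z‖ := by
    have h1 : ⟪Z, Y⟫ ≤ ‖Z‖ * ‖Y‖ := real_inner_le_norm _ _
    rw [hw1, mul_one] at h1
    have h2 : ⟪Z, Y⟫ = (a' / (1 - a')) * ⟪X, Y⟫ + b' / (b' - 1) := by
      rw [hZe, inner_add_left, real_inner_smul_left, real_inner_smul_left, real_inner_self_eq_norm_sq,
        hw1]
      ring
    have h3 : -(1 / 2) ≤ a' / (1 - a') := by
      rw [le_div_iff₀ h1a]
      linarith
    have h4 : 1 ≤ b' / (b' - 1) := by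
      rw [le_div_iff₀ h1b]
      linarith
    have h5 : -(1 / 2) ≤ (a' / (1 - a')) * ⟪X, Y⟫ := by nlinarith
    linarith
  have hZ0 : 0 < ‖Z‖ := by linarith
  -- the perturbation
  set B₀ : V n →L[ℝ] V n := (((‖Z‖ ^ 2)⁻¹ • (innerSL ℝ Z)).comp (DE n e p)).smulRight (v - w)
    with hB₀
  have hB₀v : ∀ ξ, B₀ ξ = ((‖Z‖ ^ 2)⁻¹ * ⟪Z, DE n e p ξ⟫) • (v - w) := fun ξ => rfl
  have hB₀y : B₀ y = v - w := by
    rw [hB₀v, ← hZ, real_inner_self_eq_norm_sq, inv_mul_cancel₀ (by positivity), one_smul]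
  have hcost : ∀ ξ, ‖DE n e p (B₀ ξ)‖ ≤ c * ρ p ^ (k - 1) * ‖DE n e p ξ‖ := by
    intro ξ
    rw [hB₀v, map_smul, map_sub, ← hX, ← hY, norm_smul, Real.norm_eq_abs, abs_mul,
      abs_of_nonneg (by positivity)]
    have h1 : |⟪Z, DE n e p ξ⟫| ≤ ‖Z‖ * ‖DE n e p ξ‖ := abs_real_inner_le_norm _ _
    have h2 : (‖Z‖ ^ 2)⁻¹ * |⟪Z, DE n e p ξ⟫| ≤ 2 * ‖DE n e p ξ‖ := by
      rw [inv_mul_le_iff₀ (by positivity)]
      refine h1.trans ?_
      have h3 : ‖Z‖ ≤ ‖Z‖ ^ 2 * 2 := by nlinarith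
      calc ‖Z‖ * ‖DE n e p ξ‖ ≤ (‖Z‖ ^ 2 * 2) * ‖DE n e p ξ‖ :=
            mul_le_mul_of_nonneg_right h3 (norm_nonneg _)
        _ = ‖Z‖ ^ 2 * (2 * ‖DE n e p ξ‖) := by ring
    have h4 : ‖X - Y‖ ≤ c₁ * ρ p ^ (k - 1) := hcon.le
    calc (‖Z‖ ^ 2)⁻¹ * |⟪Z, DE n e p ξ⟫| * ‖X - Y‖
        ≤ (2 * ‖DE n e p ξ‖) * (c₁ * ρ p ^ (k - 1)) :=
          mul_le_mul h2 h4 (norm_nonneg _) (by positivity)
      _ = 2 * c₁ * ρ p ^ (k - 1) * ‖DE n e p ξ‖ := by ring
      _ ≤ c * ρ p ^ (k - 1) * ‖DE n e p ξ‖ :=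
          mul_le_mul_of_nonneg_right (mul_le_mul_of_nonneg_right hc₁c hρk.le) (norm_nonneg _)
  have hx0 : x ≠ 0 := by
    intro h0
    have h1 : s • y = 0 := by rw [← hDx, h0, map_zero]
    have h2 : y = 0 := by
      have h3 : s ≠ 0 := by
        intro h4
        rw [h4, abs_zero] at hs
        norm_num at hs
      exact (smul_eq_zero.1 h1).resolve_left h3
    rw [hZ, h2, map_zero, norm_zero] at hZ0
    exact lt_irrefl _ hZ0
  refine not_hyp hx0 hs ?_ (h (fun x => if x = p then B₀ else 0) ?_)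
  · -- the product
    obtain ⟨m', rfl⟩ : ∃ m', m = m' + 1 := ⟨m - 1, by have := hm.pos; omega⟩
    set z : ℕ → V n := fun i => if i = m' + 1 then s • x else DN n (G^[i]) p x with hz
    have hz0 : z 0 = x := by
      simp only [hz]
      rw [if_neg (by omega), DN_iter_zero]
      rfl
    have h1 := pprod_track (A := fun i => (ContinuousLinearMap.id ℝ (V n) +
      (if G^[i + 1] p = p then B₀ else 0)).comp (DN n G (G^[i] p))) (z := z) (m := m' + 1) (by
        intro i hi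
        have hzi : z i = DN n (G^[i]) p x := by
          simp only [hz]
          rw [if_neg (by omega)]
        have hcomp : DN n G (G^[i] p) (DN n (G^[i]) p x) = DN n (G^[i + 1]) p x := by
          rw [DN_iter_succ hr]
          rfl
        rw [hzi]
        simp only [ContinuousLinearMap.comp_apply, hcomp, add_apply,
          ContinuousLinearMap.id_apply]
        by_cases hi' : i = m'
        · subst hi'
          rw [if_pos hm.per, hDx, map_smul, hB₀y, ← smul_add, ← hxy]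
          simp only [hz, if_true]
          congr 1
          abel
        · rw [if_neg (hm.min (i + 1) (by omega) (by omega))]
          simp only [hz]
          rw [if_neg (by omega), zero_apply, add_zero])
    rw [hz0] at h1
    rw [h1]
    simp only [hz, if_true]
  · intro y' hy' ξ
    by_cases hyp : y' = p
    · subst hyp
      simp only [if_true]
      exact hcost ξ
    · simp only [if_neg hyp, zero_apply, map_zero, norm_zero]
      have := hρ.pos y' hy'
      positivity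

end Pool.Agent.K4H47.RH
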