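import Pool.Agent.H74.G.R_seed8.H718R2.G0

/-!
# Derivatives on a manifold, immersions, separated finite sets: definitions

In Mathlib all tangent spaces of a manifold `N` modelled on `V n = ℝⁿ` are (copies of) `V n`.
-/

set_option autoImplicit false

open scoped Manifold ContDiff Topology

universe u

namespace Pool.Agent.K4H47.RH

open Pool.Agent.H718R2.G

/-- The derivative `Df(x) : T_x N → T_{f x} N` of `f : N → N`. -/
noncomputable def DN (n : ℕ) {N : Type u} [TopologicalSpace N] [ChartedSpace (V n) N] (f : N → N)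
    (x : N) : V n →L[ℝ] V n :=
  mfderiv (𝓡 n) (𝓡 n) f x

/-- The derivative `De(x) : T_x N → ℝ^q` of `e : N → ℝ^q`. -/
noncomputable def DE (n : ℕ) {q : ℕ} {N : Type u} [TopologicalSpace N] [ChartedSpace (V n) N]
    (e : N → V q) (x : N) : V n →L[ℝ] V q :=
  mfderiv (𝓡 n) (𝓡 q) e x

/-- `e : N → ℝ^q` is a smooth immersion. -/
structure IsImm (n : ℕ) {q : ℕ} {N : Type u} [TopologicalSpace N] [ChartedSpace (V n) N]
    (e : N → V q) : Prop where
  smooth : ContMDiff (𝓡 n) (𝓡 q) ∞ e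
  inj : ∀ x, Function.Injective (DE n e x)

/-- `0 < ρ x ≤ 1` for the points `x` of `O`, and `ρ x` is at most the distance
`|e x - e y|` of `x` to any other point `y` of `O`. -/
structure Radii {q : ℕ} {N : Type u} (e : N → V q) (O : Set N) (ρ : N → ℝ) : Prop where
  pos : ∀ x ∈ O, 0 < ρ x
  le_one : ∀ x ∈ O, ρ x ≤ 1
  sep : ∀ x ∈ O, ∀ y ∈ O, x ≠ y → ρ x ≤ ‖e x - e y‖

/-- The orbit of `p`. -/
def orb {N : Type u} (G : N → N) (p : N) : Set N := {x | ∃ i : ℕ, x = G^[i] p}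

/-- The composition `A (l - 1) ∘ ... ∘ A 1 ∘ A 0` of linear maps. -/
noncomputable def pprod {n : ℕ} (A : ℕ → V n →L[ℝ] V n) : ℕ → V n →L[ℝ] V n
  | 0 => ContinuousLinearMap.id ℝ (V n)
  | l + 1 => (A l).comp (pprod A l)

/-- No complex eigenvalue of `A` has modulus one. -/
def IsHypMap {n : ℕ} (A : V n →L[ℝ] V n) : Prop :=
  ∀ μ : ℂ, ((LinearMap.charpoly (A : V n →ₗ[ℝ] V n)).map (algebraMap ℝ ℂ)).IsRoot μ → ‖μ‖ ≠ 1

/-- `p` is a periodic point of `G` with least period `m`. -/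
structure IsMinPer {N : Type u} (G : N → N) (p : N) (m : ℕ) : Prop where
  pos : 1 ≤ m
  per : G^[m] p = p
  min : ∀ i, 1 ≤ i → i < m → G^[i] p ≠ p

end Pool.Agent.K4H47.RH
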