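import Pool.Agent.H74.G.R_pool_sql_team_seeded_c8625f6e.K4H47.RH.Cq

/-!
# Domination
-/

set_option autoImplicit false
set_option linter.unusedSectionVars false

open scoped Manifold ContDiff Topology RealInnerProductSpace
open Filter Set Metric

universe u

namespace Pool.Agent.K4H47.RH

open Pool.Agent.H718R2.G

theorem shear {n q : ℕ} (T : V n →L[ℝ] V q) {v w : V n} {γ : ℝ} (hγ0 : 0 < γ) (hγ1 : γ ≤ 1)
    (hv : T v ≠ 0) (hw : T w ≠ 0) (h1 : γ ≤ ‖‖T v‖⁻¹ • T v - ‖T w‖⁻¹ • T w‖)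
    (h2 : γ ≤ ‖‖T v‖⁻¹ • T v + ‖T w‖⁻¹ • T w‖) (α : ℝ) :
    ∃ B : V n →L[ℝ] V n, B v = 0 ∧ B w = α • v ∧
      ∀ ξ, ‖T (B ξ)‖ ≤ |α| * (2 * ‖T v‖ / (γ * ‖T w‖)) * ‖T ξ‖ := by
  have hv0 : 0 < ‖T v‖ := norm_pos_iff.2 hv
  have hw0 : 0 < ‖T w‖ := norm_pos_iff.2 hw
  set X : V q := ‖T v‖⁻¹ • T v with hX
  set Y : V q := ‖T w‖⁻¹ • T w with hY
  have hX1 : ‖X‖ = 1 := by
    rw [hX, norm_smul, norm_inv, norm_norm, inv_mul_cancel₀ hv0.ne']
  have hY1 : ‖Y‖ = 1 := by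
    rw [hY, norm_smul, norm_inv, norm_norm, inv_mul_cancel₀ hw0.ne']
  have hTv : T v = ‖T v‖ • X := by rw [hX, smul_smul, mul_inv_cancel₀ hv0.ne', one_smul]
  have hTw : T w = ‖T w‖ • Y := by rw [hY, smul_smul, mul_inv_cancel₀ hw0.ne', one_smul]
  clear_value X Y
  set t : ℝ := ⟪X, Y⟫ with ht
  have e1 := norm_sub_sq_real X Y
  have e2 := norm_add_sq_real X Y
  rw [hX1, hY1, ← ht] at e1 e2
  have g1 : γ ^ 2 ≤ 2 - 2 * t := by nlinarith [norm_nonneg (X - Y)]
  have g2 : γ ^ 2 ≤ 2 + 2 * t := by nlinarith [norm_nonneg (X + Y)]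
  set h : V q := Y - t • X with hh
  have hXh : ⟪h, X⟫ = 0 := by
    rw [hh, inner_sub_left, real_inner_smul_left, real_inner_self_eq_norm_sq, hX1,
      real_inner_comm X Y, ← ht]
    ring
  have hYh : ⟪h, Y⟫ = 1 - t ^ 2 := by
    rw [hh, inner_sub_left, real_inner_smul_left, real_inner_self_eq_norm_sq, hY1, ← ht]
    ring
  have hhn : ‖h‖ ^ 2 = 1 - t ^ 2 := by
    have h3 : ⟪h, h⟫ = ⟪h, Y⟫ - t * ⟪h, X⟫ := by
      conv_lhs => rw [show ⟪h, h⟫ = ⟪h, Y - t • X⟫ from rfl, inner_sub_right,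
        real_inner_smul_right]
    rw [real_inner_self_eq_norm_sq, hXh, hYh] at h3
    linarith
  have hlow : γ ^ 2 / 4 ≤ 1 - t ^ 2 := by
    rcases le_total 0 t with h0 | h0
    · nlinarith
    · nlinarith
  have hh0 : γ / 2 ≤ ‖h‖ := by
    refine le_of_sq_le_sq ?_ (norm_nonneg _)
    rw [hhn]
    linarith [hlow, show (γ / 2) ^ 2 = γ ^ 2 / 4 by ring]
  have hhpos : 0 < ‖h‖ := by linarith
  set B : V n →L[ℝ] V n := (((α * (‖T w‖ * ‖h‖ ^ 2)⁻¹) • (innerSL ℝ h)).comp T).smulRight v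
    with hB
  have hBv : ∀ ξ, B ξ = (α * (‖T w‖ * ‖h‖ ^ 2)⁻¹ * ⟪h, T ξ⟫) • v := fun ξ => rfl
  refine ⟨B, ?_, ?_, fun ξ => ?_⟩
  · rw [hBv, hTv, real_inner_smul_right, hXh, mul_zero, mul_zero, zero_smul]
  · rw [hBv]
    congr 1
    have h3 : ⟪h, T w⟫ = ‖T w‖ * ‖h‖ ^ 2 := by
      conv_lhs => rw [hTw]
      rw [real_inner_smul_right, hYh, hhn]
    rw [h3]
    field_simp
  · rw [hBv, map_smul, norm_smul, Real.norm_eq_abs, abs_mul, abs_mul]
    have h3 : |⟪h, T ξ⟫| ≤ ‖h‖ * ‖T ξ‖ := abs_real_inner_le_norm _ _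
    have h4 : |(‖T w‖ * ‖h‖ ^ 2)⁻¹| = (‖T w‖ * ‖h‖ ^ 2)⁻¹ := abs_of_nonneg (by positivity)
    rw [h4]
    have h5 : (‖T w‖ * ‖h‖ ^ 2)⁻¹ * |⟪h, T ξ⟫| ≤ 2 / (γ * ‖T w‖) * ‖T ξ‖ := by
      calc (‖T w‖ * ‖h‖ ^ 2)⁻¹ * |⟪h, T ξ⟫| ≤ (‖T w‖ * ‖h‖ ^ 2)⁻¹ * (‖h‖ * ‖T ξ‖) :=
            mul_le_mul_of_nonneg_left h3 (by positivity)
        _ = 1 / (‖T w‖ * ‖h‖) * ‖T ξ‖ := by
            field_simp
        _ ≤ 2 / (γ * ‖T w‖) * ‖T ξ‖ := by
            refine mul_le_mul_of_nonneg_right ?_ (norm_nonneg _)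
            rw [div_le_div_iff₀ (by positivity) (by positivity)]
            nlinarith
    calc |α| * (‖T w‖ * ‖h‖ ^ 2)⁻¹ * |⟪h, T ξ⟫| * ‖T v‖
        = |α| * ((‖T w‖ * ‖h‖ ^ 2)⁻¹ * |⟪h, T ξ⟫|) * ‖T v‖ := by ring
      _ ≤ |α| * (2 / (γ * ‖T w‖) * ‖T ξ‖) * ‖T v‖ := by
          refine mul_le_mul_of_nonneg_right ?_ (norm_nonneg _)
          exact mul_le_mul_of_nonneg_left h5 (abs_nonneg _)
      _ = |α| * (2 * ‖T v‖ / (γ * ‖T w‖)) * ‖T ξ‖ := by ring

variable {n : ℕ} {N : Type u} [TopologicalSpace N] [T2Space N] [CompactSpace N]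
    [ChartedSpace (V n) N] [IsManifold (𝓡 n) ∞ N]

theorem orb_shift {G : N → N} (p : N) (i : ℕ) : orb G (G^[i] p) ⊆ orb G p := by
  rintro x ⟨j, rfl⟩
  exact ⟨j + i, by rw [Function.iterate_add_apply]⟩

theorem Radii.mono {q : ℕ} {e : N → V q} {O O' : Set N} {ρ : N → ℝ} (h : Radii e O ρ)
    (hO : O' ⊆ O) : Radii e O' ρ :=
  ⟨fun x hx => h.pos x (hO hx), fun x hx => h.le_one x (hO hx),
    fun x hx y hy => h.sep x (hO hx) y (hO hy)⟩

theorem IsMinPer.shift {G : N → N} (hG : Function.Injective G) {p : N} {m : ℕ}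
    (h : IsMinPer G p m) (i : ℕ) : IsMinPer G (G^[i] p) m := by
  refine ⟨h.pos, ?_, fun j hj hjm hcon => h.min j hj hjm ?_⟩
  · rw [← Function.iterate_add_apply, add_comm, Function.iterate_add_apply, h.per]
  · rw [← Function.iterate_add_apply, add_comm, Function.iterate_add_apply] at hcon
    exact hG.iterate i hcon

theorem IsMinPer.inj {G : N → N} (hG : Function.Injective G) {p : N} {m : ℕ}
    (h : IsMinPer G p m) {i j : ℕ} (hi : 1 ≤ i) (him : i ≤ m) (hj : 1 ≤ j) (hjm : j ≤ m)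
    (hij : G^[i] p = G^[j] p) : i = j := by
  wlog hlt : i < j generalizing i j
  · rcases Nat.lt_or_ge j i with h1 | h1
    · exact (this hj hjm hi him hij.symm h1).symm
    · omega
  exfalso
  obtain ⟨d, rfl⟩ : ∃ d, j = i + d := ⟨j - i, by omega⟩
  rw [Function.iterate_add_apply] at hij
  exact h.min d (by omega) (by omega) (hG.iterate i hij).symm

theorem eig_shift {r : ℕ∞} (hr : 1 ≤ r) {G : DiffM n N r} {p : N} {m : ℕ} (hmp : G^[m] p = p)
    {v : V n} {a : ℝ} (hv : DN n (G^[m]) p v = a • v) (i : ℕ) :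
    DN n (G^[m]) (G^[i] p) (DN n (G^[i]) p v) = a • DN n (G^[i]) p v := by
  have h1 := DN_iter_add hr G m i p
  have h2 := DN_iter_add hr G i m p
  rw [add_comm i m, h1, hmp] at h2
  have h3 := congrArg (fun A : V n →L[ℝ] V n => A v) h2
  simp only [ContinuousLinearMap.comp_apply] at h3
  rw [h3, hv, map_smul]

theorem sum_ioc {m l : ℕ} (hl : l ≤ m) (f : ℕ → ℝ) :
    ∑ i ∈ Finset.range m, (if i + 1 ≤ l then f (i + 1) else 0) = ∑ i ∈ Finset.Ioc 0 l, f i := by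
  rw [← Finset.sum_filter]
  refine Finset.sum_nbij' (fun i => i + 1) (fun i => i - 1) ?_ ?_ ?_ ?_ ?_
  · intro i hi
    simp only [Finset.mem_filter, Finset.mem_range, Finset.mem_Ioc] at hi ⊢
    omega
  · intro i hi
    simp only [Finset.mem_filter, Finset.mem_range, Finset.mem_Ioc] at hi ⊢
    omega
  · intro i _
    simp
  · intro i hi
    simp only [Finset.mem_Ioc] at hi
    omega
  · intro i _
    rfl

theorem sum_ioc' {m l : ℕ} (f : ℕ → ℝ) :
    ∑ i ∈ Finset.range m, (if i + 1 ≤ l then 0 else f (i + 1)) = ∑ i ∈ Finset.Ioc l m, f i := by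
  have h1 : ∑ i ∈ Finset.range m, (if i + 1 ≤ l then 0 else f (i + 1)) =
      ∑ i ∈ Finset.range m, (if ¬ (i + 1 ≤ l) then f (i + 1) else 0) := by
    refine Finset.sum_congr rfl fun i _ => ?_
    by_cases h : i + 1 ≤ l
    · simp [h]
    · simp [h]
  rw [h1, ← Finset.sum_filter]
  refine Finset.sum_nbij' (fun i => i + 1) (fun i => i - 1) ?_ ?_ ?_ ?_ ?_
  · intro i hi
    simp only [Finset.mem_filter, Finset.mem_range, Finset.mem_Ioc] at hi ⊢
    omega
  · intro i hi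
    simp only [Finset.mem_filter, Finset.mem_range, Finset.mem_Ioc] at hi ⊢
    omega
  · intro i _
    simp
  · intro i hi
    simp only [Finset.mem_Ioc] at hi
    omega
  · intro i _
    rfl

/-- domination along the orbit -/
theorem domination {r : ℕ∞} (hr : 1 ≤ r) {q : ℕ} {e : N → V q} (he : IsImm n e)
    {G : DiffM n N r} {p : N} {m k : ℕ} {c : ℝ} (hc : 0 < c) (hm : IsMinPer G p m) {ρ : N → ℝ}
    (hρ : Radii e (orb G p) ρ) (h : ∀ i, PertHyp n e G (G^[i] p) m k c ρ) {v w : V n} {a b : ℝ}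
    (hv0 : v ≠ 0) (hw0 : w ≠ 0)
    (hv : DN n (G^[m]) p v = a • v) (hw : DN n (G^[m]) p w = b • w) (ha : |a| < 1) (hb : 1 < |b|)
    {l : ℕ} (hl : l ≤ m) :
    (c * (min c 1 / 2) / 2) ^ 2 / 2 *
      ((∑ i ∈ Finset.Ioc 0 l, ρ (G^[i] p) ^ (2 * (k - 1)) *
        (‖DE n e (G^[i] p) (DN n (G^[i]) p w)‖ / ‖DE n e (G^[i] p) (DN n (G^[i]) p v)‖)) *
      (∑ i ∈ Finset.Ioc l m, ρ (G^[i] p) ^ (2 * (k - 1)) *
        (‖DE n e (G^[i] p) (DN n (G^[i]) p v)‖ / ‖DE n e (G^[i] p) (DN n (G^[i]) p w)‖))) ≤ 1 := by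
  classical
  by_contra hcon
  push Not at hcon
  set c₁ : ℝ := min c 1 / 2 with hc₁
  have hc₁0 : 0 < c₁ := by
    have : 0 < min c 1 := lt_min hc one_pos
    positivity
  have hc₁1 : c₁ ≤ 1 / 2 := by
    rw [hc₁]
    linarith [min_le_right c 1]
  set c' : ℝ := c * c₁ / 2 with hc'
  have hc'0 : 0 < c' := by positivity
  set x : ℕ → N := fun i => G^[i] p with hx
  set vv : ℕ → V n := fun i => DN n (G^[i]) p v with hvv
  set ww : ℕ → V n := fun i => DN n (G^[i]) p w with hww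
  set nv : ℕ → ℝ := fun i => ‖DE n e (x i) (vv i)‖ with hnv
  set nw : ℕ → ℝ := fun i => ‖DE n e (x i) (ww i)‖ with hnw
  have hvi : ∀ i, DE n e (x i) (vv i) ≠ 0 := by
    intro i h0
    have h1 : vv i = 0 := he.inj _ (by rw [h0, map_zero])
    exact hv0 (DN_iter_inj hr G i p (by rw [map_zero]; exact h1))
  have hwi : ∀ i, DE n e (x i) (ww i) ≠ 0 := by
    intro i h0
    have h1 : ww i = 0 := he.inj _ (by rw [h0, map_zero])
    exact hw0 (DN_iter_inj hr G i p (by rw [map_zero]; exact h1))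
  have hnv0 : ∀ i, 0 < nv i := fun i => norm_pos_iff.2 (hvi i)
  have hnw0 : ∀ i, 0 < nw i := fun i => norm_pos_iff.2 (hwi i)
  have hxo : ∀ i, x i ∈ orb G p := fun i => ⟨i, rfl⟩
  have hρ0 : ∀ i, 0 < ρ (x i) := fun i => hρ.pos _ (hxo i)
  have hρ1 : ∀ i, ρ (x i) ^ (k - 1) ≤ 1 := fun i =>
    pow_le_one₀ (hρ0 i).le (hρ.le_one _ (hxo i))
  -- sign
  obtain ⟨s, hs, hsb⟩ : ∃ s : ℝ, |s| = 1 ∧ s * b = |b| := by
    rcases le_total 0 b with h0 | h0
    · exact ⟨1, by simp, by rw [one_mul, abs_of_nonneg h0]⟩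
    · exact ⟨-1, by simp, by rw [abs_of_nonpos h0]; ring⟩
  have hss : s * s = 1 := by
    rw [← abs_mul_abs_self, hs, one_mul]
  have hsa : |s * a| < 1 := by rw [abs_mul, hs, one_mul]; exact ha
  obtain ⟨hsal, hsar⟩ := abs_lt.1 hsa
  -- angles
  have hang : ∀ i, c₁ * ρ (x i) ^ (k - 1) ≤
      ‖(nv i)⁻¹ • DE n e (x i) (vv i) - (nw i)⁻¹ • DE n e (x i) (ww i)‖ ∧
      c₁ * ρ (x i) ^ (k - 1) ≤
      ‖(nv i)⁻¹ • DE n e (x i) (vv i) + (nw i)⁻¹ • DE n e (x i) (ww i)‖ := by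
    intro i
    have h1 := eig_shift hr hm.per hv i
    have h2 := eig_shift hr hm.per hw i
    have h3 := hm.shift G.injective i
    have h4 := hρ.mono (orb_shift (G := G) p i)
    have n1 : ‖DE n e (x i) ((nv i)⁻¹ • vv i)‖ = 1 := by
      rw [map_smul, norm_smul, norm_inv, Real.norm_of_nonneg (hnv0 i).le,
        inv_mul_cancel₀ (hnv0 i).ne']
    have n2 : ‖DE n e (x i) ((nw i)⁻¹ • ww i)‖ = 1 := by
      rw [map_smul, norm_smul, norm_inv, Real.norm_of_nonneg (hnw0 i).le,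
        inv_mul_cancel₀ (hnw0 i).ne']
    have n3 : ‖DE n e (x i) (-((nw i)⁻¹ • ww i))‖ = 1 := by
      rw [map_neg, norm_neg, n2]
    have e1 : DN n (G^[m]) (x i) ((nv i)⁻¹ • vv i) = a • ((nv i)⁻¹ • vv i) := by
      rw [map_smul, h1, smul_comm]
    have e2 : DN n (G^[m]) (x i) ((nw i)⁻¹ • ww i) = b • ((nw i)⁻¹ • ww i) := by
      rw [map_smul, h2, smul_comm]
    have e3 : DN n (G^[m]) (x i) (-((nw i)⁻¹ • ww i)) = b • (-((nw i)⁻¹ • ww i)) := by
      rw [map_neg, e2, smul_neg]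
    have a1 := angle hr hc h3 h4 (h i) e1 e2 ha hb n1 n2
    have a2 := angle hr hc h3 h4 (h i) e1 e3 ha hb n1 n3
    rw [map_smul, map_smul] at a1
    rw [map_neg, map_smul, map_smul, sub_neg_eq_add] at a2
    exact ⟨a1, a2⟩
  -- the shears
  have hshear : ∀ i, ∀ α β : ℝ, (α = 0 ∨ β = 0) →
      |α| ≤ c' * (ρ (x i) ^ (2 * (k - 1)) * (nw i / nv i)) →
      |β| ≤ c' * (ρ (x i) ^ (2 * (k - 1)) * (nv i / nw i)) →
      ∃ B : V n →L[ℝ] V n, B (vv i) = β • ww i ∧ B (ww i) = α • vv i ∧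
        ∀ ξ, ‖DE n e (x i) (B ξ)‖ ≤ c * ρ (x i) ^ (k - 1) * ‖DE n e (x i) ξ‖ := by
    intro i α β hαβ hα hβ
    have hg0 : 0 < c₁ * ρ (x i) ^ (k - 1) := mul_pos hc₁0 (pow_pos (hρ0 i) _)
    have hg1 : c₁ * ρ (x i) ^ (k - 1) ≤ 1 := by
      have := hρ1 i
      have := pow_pos (hρ0 i) (k - 1)
      nlinarith
    have hpow : ρ (x i) ^ (2 * (k - 1)) = ρ (x i) ^ (k - 1) * ρ (x i) ^ (k - 1) := by
      rw [two_mul, pow_add]
    have hn1 := hnv0 i
    have hn2 := hnw0 i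
    have hp := pow_pos (hρ0 i) (k - 1)
    rcases hαβ with h0 | h0
    · obtain ⟨B, hB1, hB2, hB3⟩ := shear (DE n e (x i)) hg0 hg1 (hwi i) (hvi i)
        (by rw [norm_sub_rev]; exact (hang i).1) (by rw [add_comm]; exact (hang i).2) β
      refine ⟨B, hB2, by rw [hB1, h0, zero_smul], fun ξ => (hB3 ξ).trans ?_⟩
      refine mul_le_mul_of_nonneg_right ?_ (norm_nonneg _)
      have h1 : |β| * (2 * nw i / (c₁ * ρ (x i) ^ (k - 1) * nv i)) ≤
          (c' * (ρ (x i) ^ (2 * (k - 1)) * (nv i / nw i))) *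
          (2 * nw i / (c₁ * ρ (x i) ^ (k - 1) * nv i)) :=
        mul_le_mul_of_nonneg_right hβ (by positivity)
      refine h1.trans (le_of_eq ?_)
      rw [hpow, hc']
      field_simp
    · obtain ⟨B, hB1, hB2, hB3⟩ := shear (DE n e (x i)) hg0 hg1 (hvi i) (hwi i)
        (hang i).1 (hang i).2 α
      refine ⟨B, by rw [hB1, h0, zero_smul], hB2, fun ξ => (hB3 ξ).trans ?_⟩
      refine mul_le_mul_of_nonneg_right ?_ (norm_nonneg _)
      have h1 : |α| * (2 * nv i / (c₁ * ρ (x i) ^ (k - 1) * nw i)) ≤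
          (c' * (ρ (x i) ^ (2 * (k - 1)) * (nw i / nv i))) *
          (2 * nv i / (c₁ * ρ (x i) ^ (k - 1) * nw i)) :=
        mul_le_mul_of_nonneg_right hα (by positivity)
      refine h1.trans (le_of_eq ?_)
      rw [hpow, hc']
      field_simp
  -- the sums
  set S₁ : ℝ := ∑ i ∈ Finset.Ioc 0 l, ρ (x i) ^ (2 * (k - 1)) * (nw i / nv i) with hS₁
  set S₂ : ℝ := ∑ i ∈ Finset.Ioc l m, ρ (x i) ^ (2 * (k - 1)) * (nv i / nw i) with hS₂
  have hS₁0 : 0 ≤ S₁ := Finset.sum_nonneg fun i _ => by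
    have := hρ0 i
    have := hnv0 i
    have := hnw0 i
    positivity
  have hS₂0 : 0 ≤ S₂ := Finset.sum_nonneg fun i _ => by
    have := hρ0 i
    have := hnv0 i
    have := hnw0 i
    positivity
  have hcon' : 2 < (c' * S₁) * (c' * S₂) := by
    have h1 : c' ^ 2 / 2 * (S₁ * S₂) = ((c' * S₁) * (c' * S₂)) / 2 := by ring
    have h2 : 1 < c' ^ 2 / 2 * (S₁ * S₂) := hcon
    rw [h1] at h2
    linarith
  set κ : ℝ := (1 - s * a) * (|b| - 1) / |b| with hκ
  have hb0 : 0 < |b| := by linarith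
  have hκ0 : 0 ≤ κ := div_nonneg (mul_nonneg (by linarith) (by linarith)) hb0.le
  have hκ2 : κ ≤ 2 := by
    rw [hκ, div_le_iff₀ hb0]
    nlinarith
  set τ : ℝ := -κ / ((c' * S₁) * (c' * S₂)) with hτ
  have hτ1 : |τ| ≤ 1 := by
    rw [hτ, abs_div, abs_neg, abs_of_nonneg hκ0, abs_of_pos (by linarith),
      div_le_one (by linarith)]
    linarith
  set al : ℕ → ℝ := fun i => if i ≤ l then c' * (ρ (x i) ^ (2 * (k - 1)) * (nw i / nv i)) else 0
    with hal
  set be : ℕ → ℝ := fun i => if i ≤ l then 0 else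
    τ * (c' * (ρ (x i) ^ (2 * (k - 1)) * (nv i / nw i))) with hbe
  have hab : ∀ i, al i = 0 ∨ be i = 0 := by
    intro i
    by_cases hi : i ≤ l
    · right
      simp only [hbe, if_pos hi]
    · left
      simp only [hal, if_neg hi]
  choose BB hBv hBw hBc using fun i => hshear i (al i) (be i) (hab i)
    (by
      have := hρ0 i
      have := hnv0 i
      have := hnw0 i
      by_cases hi : i ≤ l
      · simp only [hal, if_pos hi]
        rw [abs_of_nonneg (by positivity)]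
      · simp only [hal, if_neg hi, abs_zero]
        positivity)
    (by
      have := hρ0 i
      have := hnv0 i
      have := hnw0 i
      by_cases hi : i ≤ l
      · simp only [hbe, if_pos hi, abs_zero]
        positivity
      · simp only [hbe, if_neg hi]
        rw [abs_mul, abs_of_nonneg (a := c' * (ρ (x i) ^ (2 * (k - 1)) * (nv i / nw i)))
          (by positivity)]
        exact mul_le_of_le_one_left (by positivity) hτ1)
  set B : N → V n →L[ℝ] V n := fun y => ∑ i ∈ Finset.Icc 1 m, if x i = y then BB i else 0 with hB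
  have hBx : ∀ i, 1 ≤ i → i ≤ m → B (x i) = BB i := by
    intro i hi him
    simp only [hB]
    rw [Finset.sum_eq_single i]
    · rw [if_pos rfl]
    · intro j hj hji
      rw [Finset.mem_Icc] at hj
      rw [if_neg]
      intro hcon2
      exact hji (hm.inj G.injective hj.1 hj.2 hi him hcon2)
    · intro h1
      exact absurd (Finset.mem_Icc.2 ⟨hi, him⟩) h1
  have hsurj : ∀ y ∈ orb G p, ∃ i, 1 ≤ i ∧ i ≤ m ∧ x i = y := by
    rintro y ⟨j, rfl⟩
    have h1 : Function.IsPeriodicPt G m p := hm.per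
    have hmpos := hm.pos
    by_cases h0 : j % m = 0
    · refine ⟨m, hm.pos, le_rfl, ?_⟩
      have h2 := h1.iterate_mod_apply j
      rw [h0] at h2
      simp only [hx]
      rw [← h2, hm.per]
      rfl
    · refine ⟨j % m, by omega, (Nat.mod_lt _ hmpos).le, ?_⟩
      exact h1.iterate_mod_apply j
  -- the final sums
  set fa : ℕ → ℝ := fun i => ∑ j ∈ Finset.range i, al (j + 1) with hfa
  set fb : ℕ → ℝ := fun i => ∑ j ∈ Finset.range i, be (j + 1) with hfb
  have hfam : fa m = c' * S₁ := by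
    simp only [hfa, hal, hS₁]
    rw [sum_ioc hl (fun i => c' * (ρ (x i) ^ (2 * (k - 1)) * (nw i / nv i))), Finset.mul_sum]
  have hfbm : fb m = τ * (c' * S₂) := by
    simp only [hfb, hbe, hS₂]
    rw [sum_ioc' (fun i => τ * (c' * (ρ (x i) ^ (2 * (k - 1)) * (nv i / nw i)))), Finset.mul_sum,
      Finset.mul_sum]
  have hfbl : ∀ i, i ≤ l → fb i = 0 := by
    intro i hi
    refine Finset.sum_eq_zero fun j hj => ?_
    rw [Finset.mem_range] at hj
    simp only [hbe]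
    rw [if_pos (by omega)]
  set X : ℝ := a * fa m with hX
  set Y : ℝ := s - a with hY
  set z : ℕ → V n := fun i => (X + fa i * Y) • vv i + (Y + fb i * (X + fa i * Y)) • ww i with hz
  have hprod : fa m * fb m = -κ := by
    rw [hfam, hfbm, hτ]
    have hne : (c' * S₁) * (c' * S₂) ≠ 0 := by linarith
    have h1 : c' * S₁ * (-κ / (c' * S₁ * (c' * S₂)) * (c' * S₂)) =
        -κ * ((c' * S₁) * (c' * S₂) / ((c' * S₁) * (c' * S₂))) := by ring
    rw [h1, div_self hne, mul_one]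
  have hz0 : z 0 = X • v + Y • w := by
    have e1 : vv 0 = v := by
      simp only [hvv]
      rw [DN_iter_zero]
      rfl
    have e2 : ww 0 = w := by
      simp only [hww]
      rw [DN_iter_zero]
      rfl
    simp only [hz, e1, e2, hfa, hfb, Finset.range_zero, Finset.sum_empty, zero_mul, add_zero]
  have hzm : z m = s • z 0 := by
    have e1 : vv m = a • v := hv
    have e2 : ww m = b • w := hw
    rw [hz0]
    simp only [hz, e1, e2]
    rw [smul_add, smul_smul, smul_smul, smul_smul, smul_smul]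
    have f1 : X + fa m * Y = fa m * s := by
      rw [hX, hY]
      ring
    congr 2
    · rw [f1, hX]
      ring
    · rw [f1, hY]
      have f2 : (s - a + fb m * (fa m * s)) * b = (s - a) * b + (fa m * fb m) * (s * b) := by ring
      rw [f2, hprod, hsb, hκ]
      have f3 : (1 - s * a) * (|b| - 1) / |b| * |b| = (1 - s * a) * (|b| - 1) :=
        div_mul_cancel₀ _ hb0.ne'
      rw [neg_mul, f3, ← hsb]
      linear_combination (a * b - 1) * hss
  have hzne : z 0 ≠ 0 := by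
    intro h0
    rw [hz0] at h0
    have h1 := congrArg (DN n (G^[m]) p) h0
    rw [map_add, map_smul, map_smul, hv, hw, map_zero] at h1
    have h2 : (Y * (b - a)) • w = 0 := by
      have h3 : (Y * (b - a)) • w = (X • a • v + Y • b • w) - a • (X • v + Y • w) := by module
      rw [h3, h1, h0, smul_zero, sub_zero]
    rcases smul_eq_zero.1 h2 with h3 | h3
    · rcases mul_eq_zero.1 h3 with h4 | h4
      · rw [hY, sub_eq_zero] at h4
        rw [← h4, hs] at ha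
        exact lt_irrefl _ ha
      · rw [sub_eq_zero] at h4
        rw [h4] at hb
        linarith
    · exact hw0 h3
  refine not_hyp hzne hs ?_ (h 0 B ?_)
  · rw [pprod_track (z := z), hzm]
    intro i hi
    have e0 : G^[i] (G^[0] p) = x i := rfl
    have e1 : G^[i + 1] (G^[0] p) = x (i + 1) := rfl
    rw [e0, e1, hBx (i + 1) (by omega) (by omega)]
    have e2 : DN n G (x i) (vv i) = vv (i + 1) := by
      simp only [hvv]
      rw [DN_iter_succ hr]
      rfl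
    have e3 : DN n G (x i) (ww i) = ww (i + 1) := by
      simp only [hww]
      rw [DN_iter_succ hr]
      rfl
    have f1 : fa (i + 1) = fa i + al (i + 1) := Finset.sum_range_succ _ _
    have f2 : fb (i + 1) = fb i + be (i + 1) := Finset.sum_range_succ _ _
    simp only [hz, ContinuousLinearMap.comp_apply, map_add, map_smul, e2, e3, add_apply,
      ContinuousLinearMap.id_apply, hBv, hBw, f1, f2]
    by_cases hi' : i + 1 ≤ l
    · have g1 : fb i = 0 := hfbl i (by omega)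
      have g2 : be (i + 1) = 0 := by simp only [hbe, if_pos hi']
      rw [g1, g2]
      module
    · have g1 : al (i + 1) = 0 := by simp only [hal, if_neg hi']
      rw [g1]
      module
  · intro y hy ξ
    obtain ⟨i, hi, him, rfl⟩ := hsurj y (orb_shift p 0 hy)
    rw [hBx i hi him]
    exact hBc i ξ

end Pool.Agent.K4H47.RH
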