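import Pool.Agent.H74.G.R_seed8.W564.SC.Lib

/-!
# Small pushes of nearby diffeomorphisms stay in a given neighbourhood (uniform version)
-/

set_option autoImplicit false
set_option linter.unusedSectionVars false

open scoped Manifold ContDiff Topology
open Filter Set Metric

universe u

namespace Pool.Agent.K4H47.RH

open Pool.Agent.H718R2.G Pool.Agent.W564.SC

variable {n : ℕ} {N : Type u} [TopologicalSpace N] [T2Space N] [CompactSpace N]
    [ChartedSpace (V n) N] [IsManifold (𝓡 n) ∞ N]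

/-- local representatives are smooth -/
theorem cda_chart {r : ℕ∞} (G : DiffM n N r) {k : ℕ} (hk : (k : ℕ∞) ≤ r)
    {φ ψ : OpenPartialHomeomorph N (V n)} (hφ : φ ∈ IsManifold.maximalAtlas (𝓡 n) ∞ N)
    (hψ : ψ ∈ IsManifold.maximalAtlas (𝓡 n) ∞ N) {x : N} (hx : x ∈ φ.source)
    (hGx : G x ∈ ψ.source) : ContDiffAt ℝ k (ψ ∘ G ∘ φ.symm) (φ x) := by
  have hle : ((k : ℕ) : WithTop ℕ∞) ≤ ((r : ℕ∞) : WithTop ℕ∞) := by exact_mod_cast hk
  have hsymm : ContMDiffAt (𝓡 n) (𝓡 n) k φ.symm (φ x) :=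
    (contMDiffAt_symm_of_mem_maximalAtlas hφ (φ.map_source hx)).of_le (by exact_mod_cast le_top)
  have hG : ContMDiffAt (𝓡 n) (𝓡 n) k (G ∘ φ.symm) (φ x) := by
    refine ContMDiffAt.comp (φ x) ?_ hsymm
    exact (G.contMDiff_toFun.of_le hle).contMDiffAt
  have hψ' : ContMDiffAt (𝓡 n) (𝓡 n) k ψ (G (φ.symm (φ x))) := by
    rw [φ.left_inv hx]
    exact (contMDiffAt_of_mem_maximalAtlas hψ hGx).of_le (by exact_mod_cast le_top)
  have h := ContMDiffAt.comp (φ x) (g := ψ) (f := G ∘ φ.symm) hψ' hG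
  rwa [contMDiffAt_iff_contDiffAt] at h

/-- the same charts and compact sets, with constant `ε` -/
def shrink (D : StrongData n N) (ε : ℝ) (hε : 0 < ε) : StrongData n N where
  ι := D.ι
  φ := D.φ
  ψ := D.ψ
  K := D.K
  ε := fun _ => ε
  φ_mem := D.φ_mem
  ψ_mem := D.ψ_mem
  lf := D.lf
  compact := D.compact
  sub := D.sub
  pos := fun _ => hε

theorem tendsto_of_chart {ψ : OpenPartialHomeomorph N (V n)} {y : ℕ → N} {y₀ : N}
    (hy : ∀ m, y m ∈ ψ.source) (hy₀ : y₀ ∈ ψ.source)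
    (h : Tendsto (fun m => ψ (y m)) atTop (𝓝 (ψ y₀))) : Tendsto y atTop (𝓝 y₀) := by
  have h1 : ContinuousAt ψ.symm (ψ y₀) := ψ.continuousAt_symm (ψ.map_source hy₀)
  have h2 := h1.tendsto.comp h
  rw [ψ.left_inv hy₀] at h2
  refine h2.congr fun m => ?_
  exact ψ.left_inv (hy m)

theorem single_uniform {r : ℕ∞} (F : DiffM n N r) (χ : OpenPartialHomeomorph N (V n)) (z : N)
    (hχ : GoodChart n N χ z) (D : StrongData n N) (k : ℕ) (f : DiffM n N r) (hk : (k : ℕ∞) ≤ r)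
    (hf : ∀ i, ∀ x ∈ D.K i, f x ∈ (D.ψ i).source) (h0 : F ∈ strongNbhd D k f) :
    ∃ (κ : ℝ) (hκ : 0 < κ), ∀ G ∈ strongNbhd (shrink D κ hκ) k F, ∀ (u : V n → V n)
      (Θ : DiffM n N r), Small n k κ u → IsPush n N r χ u Θ → G.trans Θ ∈ strongNbhd D k f := by
  by_contra hcon
  push Not at hcon
  have hpos : ∀ m : ℕ, (0 : ℝ) < 1 / ((m : ℝ) + 1) := fun m => by positivity
  choose G hG u Θ hu hΘ hno using fun m : ℕ => hcon (1 / ((m : ℝ) + 1)) (hpos m)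
  have hno' : ∀ m, ∃ i, ∃ x, x ∈ D.K i ∧ ¬ (Θ m (G m x) ∈ (D.ψ i).source ∧ ∀ j : ℕ, j ≤ k →
      ‖iteratedFDeriv ℝ j (D.ψ i ∘ (fun y => Θ m (G m y)) ∘ (D.φ i).symm) (D.φ i x)
        - iteratedFDeriv ℝ j (D.ψ i ∘ f ∘ (D.φ i).symm) (D.φ i x)‖ < D.ε i) := by
    intro m
    by_contra hc
    push Not at hc
    apply hno m
    intro i x hx
    exact hc i x hx
  choose i x hx hbad using hno'
  -- the index can be taken constant
  have hfin : {i | ((D.φ i).source).Nonempty}.Finite := D.lf.finite_nonempty_of_compact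
  have hne : ∀ m, ((D.φ (i m)).source).Nonempty := fun m => ⟨x m, D.sub _ (hx m)⟩
  have := hfin.to_subtype
  obtain ⟨i₀, hi₀⟩ := Finite.exists_infinite_fiber
    (fun m => (⟨i m, hne m⟩ : {i | ((D.φ i).source).Nonempty}))
  have hinf : {m | i m = i₀.1}.Infinite := by
    rw [Set.infinite_coe_iff] at hi₀
    refine hi₀.mono ?_
    intro m hm
    exact congrArg Subtype.val hm
  obtain ⟨g₁, hg₁, hi₁⟩ := extraction_of_frequently_atTop (Nat.frequently_atTop_iff_infinite.mpr hinf)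
  have : SecondCountableTopology N := ChartedSpace.secondCountable_of_sigmaCompact (V n) N
  obtain ⟨x₀, g₂, hg₂, hx₀⟩ := CompactSpace.tendsto_subseq (x ∘ g₁)
  set g : ℕ → ℕ := g₁ ∘ g₂ with hg
  have hgm : StrictMono g := hg₁.comp hg₂
  have hgt : Tendsto g atTop atTop := hgm.tendsto_atTop
  have hig : ∀ m, i (g m) = i₀.1 := fun m => hi₁ _
  have hxg : Tendsto (fun m => x (g m)) atTop (𝓝 x₀) := hx₀
  have hxK : ∀ m, x (g m) ∈ D.K i₀.1 := fun m => by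
    have := hx (g m)
    rwa [hig m] at this
  have hx₀K : x₀ ∈ D.K i₀.1 :=
    (D.compact i₀.1).isClosed.mem_of_tendsto hxg (Eventually.of_forall hxK)
  have hκ : Tendsto (fun m => 1 / ((g m : ℕ) + 1 : ℝ)) atTop (𝓝 0) :=
    (tendsto_one_div_add_atTop_nhds_zero_nat (𝕜 := ℝ)).comp hgt
  set φ := D.φ i₀.1 with hφ
  set ψ := D.ψ i₀.1 with hψ
  have mφ : φ ∈ IsManifold.maximalAtlas (𝓡 n) ∞ N := D.φ_mem _
  have mψ : ψ ∈ IsManifold.maximalAtlas (𝓡 n) ∞ N := D.ψ_mem _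
  have hxφ : ∀ m, x (g m) ∈ φ.source := fun m => D.sub _ (hxK m)
  have hx₀φ : x₀ ∈ φ.source := D.sub _ hx₀K
  have hFψ : F x₀ ∈ ψ.source := (h0 i₀.1 x₀ hx₀K).1
  have hFm : ∀ m, F (x (g m)) ∈ ψ.source := fun m => (h0 i₀.1 _ (hxK m)).1
  -- the jets of the maps `G m`
  have hGm : ∀ m, G (g m) (x (g m)) ∈ ψ.source := fun m => (hG (g m) i₀.1 _ (hxK m)).1
  have hGd : ∀ m, ∀ j ≤ k, ‖iteratedFDeriv ℝ j (ψ ∘ G (g m) ∘ φ.symm) (φ (x (g m)))
      - iteratedFDeriv ℝ j (ψ ∘ F ∘ φ.symm) (φ (x (g m)))‖ < 1 / ((g m : ℕ) + 1 : ℝ) :=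
    fun m j hj => (hG (g m) i₀.1 _ (hxK m)).2 j hj
  have hpt : Tendsto (fun m => φ (x (g m))) atTop (𝓝 (φ x₀)) :=
    (φ.continuousAt hx₀φ).tendsto.comp hxg
  have jF : JetConv k (fun _ : ℕ => ψ ∘ F ∘ φ.symm) (fun m => φ (x (g m))) (ψ ∘ F ∘ φ.symm)
      (φ x₀) := Pool.Agent.W683.SC.jet_const hpt (cda_chart F hk mφ mψ hx₀φ hFψ)
  have jf : JetConv k (fun _ : ℕ => ψ ∘ f ∘ φ.symm) (fun m => φ (x (g m))) (ψ ∘ f ∘ φ.symm)
      (φ x₀) := Pool.Agent.W683.SC.jet_const hpt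
        (cda_chart f hk mφ mψ hx₀φ (hf i₀.1 x₀ hx₀K))
  have jG : JetConv k (fun m : ℕ => ψ ∘ G (g m) ∘ φ.symm) (fun m => φ (x (g m)))
      (ψ ∘ F ∘ φ.symm) (φ x₀) := by
    refine ⟨hpt, Eventually.of_forall fun m => cda_chart (G (g m)) hk mφ mψ (hxφ m) (hGm m),
      jF.smooth₀, fun j hj => ?_⟩
    have h1 : Tendsto (fun m => iteratedFDeriv ℝ j (ψ ∘ G (g m) ∘ φ.symm) (φ (x (g m)))
      - iteratedFDeriv ℝ j (ψ ∘ F ∘ φ.symm) (φ (x (g m)))) atTop (𝓝 0) := by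
      rw [tendsto_zero_iff_norm_tendsto_zero]
      exact squeeze_zero (fun m => norm_nonneg _) (fun m => (hGd m j hj).le) hκ
    have h2 := h1.add (jF.conv j hj)
    simpa using h2
  -- convergence of the images
  have hval : Tendsto (fun m => ψ (G (g m) (x (g m)))) atTop (𝓝 (ψ (F x₀))) := by
    have h1 := jG.conv 0 (Nat.zero_le _)
    have h2 : Tendsto (fun m => (ψ ∘ G (g m) ∘ φ.symm) (φ (x (g m)))) atTop
        (𝓝 ((ψ ∘ F ∘ φ.symm) (φ x₀))) := by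
      have h3 : Continuous fun A : (ContinuousMultilinearMap ℝ (fun _ : Fin 0 => V n) (V n)) =>
          A 0 := by fun_prop
      have h4 := (h3.tendsto _).comp h1
      simpa [Function.comp_def, iteratedFDeriv_zero_apply] using h4
    simp only [Function.comp_apply, φ.left_inv hx₀φ] at h2
    refine h2.congr fun m => ?_
    rw [φ.left_inv (hxφ m)]
  have himg : Tendsto (fun m => G (g m) (x (g m))) atTop (𝓝 (F x₀)) :=
    tendsto_of_chart hGm hFψ hval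
  -- the jets of the pushes
  obtain ⟨hsrc, hder⟩ := t_LOC n N r (P := ℝ) (fun _ => Diffeomorph.refl (𝓡 n) N r)
    (Pool.Agent.W923.SC.isFam_const _) χ z hχ k hk ψ ψ mψ mψ
    (fun m => G (g m) (x (g m))) (F x₀) himg hFψ hFψ (fun _ => 0) tendsto_const_nhds
    (fun m => u (g m)) (fun m => 1 / ((g m : ℕ) + 1 : ℝ)) hκ (fun m => hu (g m))
    (fun m => Θ (g m)) (fun m => hΘ (g m))
  have jΘ : JetConv k (fun m : ℕ => ψ ∘ Θ (g m) ∘ ψ.symm)
      (fun m => (ψ ∘ G (g m) ∘ φ.symm) (φ (x (g m))))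
      (ψ ∘ (Diffeomorph.refl (𝓡 n) N r) ∘ ψ.symm) ((ψ ∘ F ∘ φ.symm) (φ x₀)) := by
    have e1 : (ψ ∘ F ∘ φ.symm) (φ x₀) = ψ (F x₀) := by
      simp only [Function.comp_apply, φ.left_inv hx₀φ]
    have e2 : ∀ m, (ψ ∘ G (g m) ∘ φ.symm) (φ (x (g m))) = ψ (G (g m) (x (g m))) := by
      intro m
      simp only [Function.comp_apply, φ.left_inv (hxφ m)]
    rw [e1]
    simp only [e2]
    refine ⟨hval, ?_, ?_, fun j hj => ?_⟩
    · filter_upwards [hsrc] with m hm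
      exact cda_chart (Θ (g m)) hk mψ mψ (hGm m) hm
    · exact cda_chart (Diffeomorph.refl (𝓡 n) N r) hk mψ mψ hFψ hFψ
    · exact hder j hj
  have jc := Pool.Agent.W917.SC.comp (V n) (V n) (V n) k _ _ _ _ _ _ jG jΘ
  -- comparison
  have hev : ∀ j : ℕ, j ≤ k → ∀ᶠ m in atTop,
      ‖iteratedFDeriv ℝ j (ψ ∘ (fun y => Θ (g m) (G (g m) y)) ∘ φ.symm) (φ (x (g m)))
        - iteratedFDeriv ℝ j (ψ ∘ f ∘ φ.symm) (φ (x (g m)))‖ < D.ε i₀.1 := by
    intro j hj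
    have e1 : ∀ m, iteratedFDeriv ℝ j (ψ ∘ (fun y => Θ (g m) (G (g m) y)) ∘ φ.symm)
        (φ (x (g m))) = iteratedFDeriv ℝ j ((ψ ∘ Θ (g m) ∘ ψ.symm) ∘ (ψ ∘ G (g m) ∘ φ.symm))
        (φ (x (g m))) := by
      intro m
      refine Filter.EventuallyEq.eq_of_nhds (Filter.EventuallyEq.iteratedFDeriv ℝ ?_ j)
      have c1 : ContinuousAt (fun v => G (g m) (φ.symm v)) (φ (x (g m))) :=
        (G (g m)).continuous.continuousAt.comp (φ.continuousAt_symm (φ.map_source (hxφ m)))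
      have c2 : ∀ᶠ v in 𝓝 (φ (x (g m))), G (g m) (φ.symm v) ∈ ψ.source := by
        refine c1.eventually (ψ.open_source.mem_nhds ?_)
        simp only [φ.left_inv (hxφ m)]
        exact hGm m
      filter_upwards [c2] with v hv
      simp only [Function.comp_apply, ψ.left_inv hv]
    have e2 : iteratedFDeriv ℝ j ((ψ ∘ (Diffeomorph.refl (𝓡 n) N r) ∘ ψ.symm) ∘
        (ψ ∘ F ∘ φ.symm)) (φ x₀) = iteratedFDeriv ℝ j (ψ ∘ F ∘ φ.symm) (φ x₀) := by
      refine Filter.EventuallyEq.eq_of_nhds (Filter.EventuallyEq.iteratedFDeriv ℝ ?_ j)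
      have c1 : ContinuousAt (fun v => F (φ.symm v)) (φ x₀) :=
        F.continuous.continuousAt.comp (φ.continuousAt_symm (φ.map_source hx₀φ))
      have c2 : ∀ᶠ v in 𝓝 (φ x₀), F (φ.symm v) ∈ ψ.source := by
        refine c1.eventually (ψ.open_source.mem_nhds ?_)
        simp only [φ.left_inv hx₀φ]
        exact hFψ
      filter_upwards [c2] with v hv
      simp only [Function.comp_apply, ψ.left_inv hv, Diffeomorph.coe_refl, id]
    have h1 := ((jc.conv j hj).sub (jf.conv j hj)).norm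
    rw [e2] at h1
    simp only [e1]
    exact h1.eventually (gt_mem_nhds ((h0 i₀.1 x₀ hx₀K).2 j hj))
  have hall : ∀ᶠ m in atTop, ∀ j ∈ Finset.range (k + 1),
      ‖iteratedFDeriv ℝ j (ψ ∘ (fun y => Θ (g m) (G (g m) y)) ∘ φ.symm) (φ (x (g m)))
        - iteratedFDeriv ℝ j (ψ ∘ f ∘ φ.symm) (φ (x (g m)))‖ < D.ε i₀.1 := by
    rw [Finset.eventually_all]
    intro j hj
    exact hev j (Nat.lt_succ_iff.mp (Finset.mem_range.mp hj))
  obtain ⟨m, hm1, hm2⟩ := (hsrc.and hall).exists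
  have hb := hbad (g m)
  rw [hig m] at hb
  exact hb ⟨hm1, fun j hj => hm2 j (Finset.mem_range.mpr (Nat.lt_succ_iff.mpr hj))⟩

/-- The uniform neighbourhood lemma. -/
theorem nbhd_uniform {r : ℕ∞} (hr : 1 ≤ r) (F : DiffM n N r) (χ : OpenPartialHomeomorph N (V n))
    (z : N) (hχ : GoodChart n N χ z) (U : Set (DiffM n N r)) (hU : IsOpen[strongTop n N r] U)
    (h0 : F ∈ U) :
    ∃ U' : Set (DiffM n N r), IsOpen[strongTop n N r] U' ∧ F ∈ U' ∧ ∃ k : ℕ, 1 ≤ k ∧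
      (k : ℕ∞) ≤ r ∧ ∃ κ : ℝ, 0 < κ ∧ ∀ G ∈ U', ∀ (u : V n → V n) (Θ : DiffM n N r),
        Small n k κ u → IsPush n N r χ u Θ → G.trans Θ ∈ U := by
  letI : TopologicalSpace (DiffM n N r) := strongTop n N r
  have hbas := TopologicalSpace.isTopologicalBasis_of_subbasis (t := strongTop n N r) rfl
  obtain ⟨B, ⟨S, ⟨hF1, hF2⟩, rfl⟩, hB1, hB2⟩ := hbas.exists_subset_of_mem_open h0 hU
  have key : ∃ U' : Set (DiffM n N r), IsOpen[strongTop n N r] U' ∧ F ∈ U' ∧ ∃ k : ℕ, 1 ≤ k ∧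
      (k : ℕ∞) ≤ r ∧ ∃ κ : ℝ, 0 < κ ∧ ∀ G ∈ U', ∀ (u : V n → V n) (Θ : DiffM n N r),
        Small n k κ u → IsPush n N r χ u Θ → ∀ T ∈ S, G.trans Θ ∈ T := by
    clear hB2 hU h0 U
    induction S, hF1 using Set.Finite.induction_on with
    | empty => exact ⟨univ, isOpen_univ, mem_univ _, 1, le_rfl, hr, 1, one_pos,
        fun _ _ _ _ _ _ T hT => hT.elim⟩
    | insert hS hfin ih =>
      rename_i T S
      obtain ⟨U₁, hU₁, hFU₁, k, hk1, hkr, κ, hκ, hk⟩ :=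
        ih (fun T hT => hF2 (mem_insert_of_mem _ hT)) (fun T hT => hB1 T (mem_insert_of_mem _ hT))
      obtain ⟨D, k', f, hk'r, hf, rfl⟩ := hF2 (mem_insert _ _)
      have hFm : F ∈ strongNbhd D k' f := hB1 _ (mem_insert _ _)
      obtain ⟨κ', hκ', hk'⟩ := single_uniform F χ z hχ D k' f hk'r hf hFm
      have hopen : IsOpen[strongTop n N r] (strongNbhd (shrink D κ' hκ') k' F) :=
        TopologicalSpace.isOpen_generateFrom_of_mem
          ⟨shrink D κ' hκ', k', F, hk'r, fun i x hx => (hFm i x hx).1, rfl⟩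
      have hself : F ∈ strongNbhd (shrink D κ' hκ') k' F := by
        intro i x hx
        refine ⟨(hFm i x hx).1, fun m _ => ?_⟩
        rw [sub_self, norm_zero]
        exact hκ'
      refine ⟨U₁ ∩ strongNbhd (shrink D κ' hκ') k' F, IsOpen.inter hU₁ hopen, ⟨hFU₁, hself⟩,
        max k k', le_max_of_le_left hk1, ?_, min κ κ', lt_min hκ hκ', ?_⟩
      · rcases max_choice k k' with hm | hm <;> rw [hm] <;> assumption
      · intro G hG u Θ hu hΘ T hT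
        rcases hT with rfl | hT
        · exact hk' G hG.2 u Θ
            (Pool.Agent.W923.SC.small_mono hu (le_max_right _ _) (min_le_right _ _)) hΘ
        · exact hk G hG.1 u Θ
            (Pool.Agent.W923.SC.small_mono hu (le_max_left _ _) (min_le_left _ _)) hΘ T hT
  obtain ⟨U', hU', hFU', k, hk1, hkr, κ, hκ, hk⟩ := key
  exact ⟨U', hU', hFU', k, hk1, hkr, κ, hκ,
    fun G hG u Θ hu hΘ => hB2 (fun T hT => hk G hG u Θ hu hΘ T hT)⟩

end Pool.Agent.K4H47.RH
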