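import Pool.Agent.H74.G.R_pool_sql_team_seeded_c8625f6e.K4H47.RH.Def
import Pool.Agent.H74.G.R_pool_sql_team_seeded_c8625f6e.K4H47.RH.Bp
import Pool.Agent.H74.G.R_pool_sql_team_seeded_c8625f6e.K4H47.RH.Nb

/-!
# The derivative of a push
-/

set_option autoImplicit false
set_option linter.unusedSectionVars false

open scoped Manifold ContDiff Topology
open Filter Set Metric

universe u

namespace Pool.Agent.K4H47.RH

open Pool.Agent.H718R2.G Pool.Agent.W564.SC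

variable {n : ℕ} {N : Type u} [TopologicalSpace N] [ChartedSpace (V n) N] [IsManifold (𝓡 n) ∞ N]

/-- derivative of a chart -/
noncomputable def Tc (χ : OpenPartialHomeomorph N (V n)) (x : N) : V n →L[ℝ] V n :=
  mfderiv (𝓡 n) (𝓡 n) χ x

/-- derivative of the inverse of a chart -/
noncomputable def Sc (χ : OpenPartialHomeomorph N (V n)) (v : V n) : V n →L[ℝ] V n :=
  mfderiv (𝓡 n) (𝓡 n) χ.symm v

theorem chart_md {χ : OpenPartialHomeomorph N (V n)}
    (hχ : χ ∈ IsManifold.maximalAtlas (𝓡 n) ∞ N) : χ.MDifferentiable (𝓡 n) (𝓡 n) :=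
  ⟨(contMDiffOn_of_mem_maximalAtlas hχ).mdifferentiableOn (by simp),
    (contMDiffOn_symm_of_mem_maximalAtlas hχ).mdifferentiableOn (by simp)⟩

theorem ST {χ : OpenPartialHomeomorph N (V n)} (hχ : χ ∈ IsManifold.maximalAtlas (𝓡 n) ∞ N)
    {x : N} (hx : x ∈ χ.source) : (Sc χ (χ x)).comp (Tc χ x) = ContinuousLinearMap.id ℝ (V n) :=
  (chart_md hχ).symm_comp_deriv hx

theorem TS' {χ : OpenPartialHomeomorph N (V n)} (hχ : χ ∈ IsManifold.maximalAtlas (𝓡 n) ∞ N)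
    {v : V n} (hv : v ∈ χ.target) :
    (Tc χ (χ.symm v)).comp (Sc χ v) = ContinuousLinearMap.id ℝ (V n) :=
  (chart_md hχ).comp_symm_deriv hv

theorem TS {χ : OpenPartialHomeomorph N (V n)} (hχ : χ ∈ IsManifold.maximalAtlas (𝓡 n) ∞ N)
    {x : N} (hx : x ∈ χ.source) : (Tc χ x).comp (Sc χ (χ x)) = ContinuousLinearMap.id ℝ (V n) := by
  have h := TS' hχ (χ.map_source hx)
  rwa [χ.left_inv hx] at h

theorem DN_comp {f g : N → N} {x : N} (hg : MDifferentiableAt (𝓡 n) (𝓡 n) g (f x))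
    (hf : MDifferentiableAt (𝓡 n) (𝓡 n) f x) :
    DN n (g ∘ f) x = (DN n g (f x)).comp (DN n f x) :=
  mfderiv_comp x hg hf

theorem diff_md {r : ℕ∞} (hr : 1 ≤ r) (G : DiffM n N r) : MDifferentiable (𝓡 n) (𝓡 n) G :=
  G.mdifferentiable (by
    intro h
    have : r = 0 := by exact_mod_cast h
    rw [this] at hr
    exact absurd hr (by simp))

theorem DN_trans {r : ℕ∞} (hr : 1 ≤ r) (G Θ : DiffM n N r) (x : N) :
    DN n (G.trans Θ) x = (DN n Θ (G x)).comp (DN n G x) :=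
  DN_comp (diff_md hr Θ _) (diff_md hr G _)

theorem DN_id_near {f : N → N} {x : N} (h : ∀ᶠ z in 𝓝 x, f z = z) :
    DN n f x = ContinuousLinearMap.id ℝ (V n) := by
  have h1 : f =ᶠ[𝓝 x] id := h
  unfold DN
  rw [h1.mfderiv_eq]
  exact mfderiv_id

/-- the derivative of a map which is `id + u` in a chart -/
theorem DN_push {Θ : N → N} {χ : OpenPartialHomeomorph N (V n)}
    (hχ : χ ∈ IsManifold.maximalAtlas (𝓡 n) ∞ N) {u : V n → V n}
    (hΘ : ∀ y ∈ χ.source, Θ y ∈ χ.source ∧ χ (Θ y) = χ y + u (χ y)) {y : N} (hy : y ∈ χ.source)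
    (hu0 : u (χ y) = 0) {u' : V n →L[ℝ] V n} (hu : HasFDerivAt u u' (χ y)) :
    DN n Θ y = (Sc χ (χ y)).comp ((ContinuousLinearMap.id ℝ (V n) + u').comp (Tc χ y)) := by
  have hmd := chart_md hχ
  have h1 : HasMFDerivAt (𝓡 n) (𝓡 n) χ y (Tc χ y) := (hmd.mdifferentiableAt hy).hasMFDerivAt
  have h2 : HasMFDerivAt (𝓡 n) (𝓡 n) (fun w : V n => w + u w) (χ y)
      (ContinuousLinearMap.id ℝ (V n) + u') :=
    ((hasFDerivAt_id (χ y)).add hu).hasMFDerivAt
  have e0 : χ y + u (χ y) = χ y := by rw [hu0, add_zero]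
  have h3 : HasMFDerivAt (𝓡 n) (𝓡 n) χ.symm (χ y + u (χ y)) (Sc χ (χ y)) := by
    rw [e0]
    exact (hmd.mdifferentiableAt_symm (χ.map_source hy)).hasMFDerivAt
  have h4 := HasMFDerivAt.comp y (g := fun w : V n => w + u w) (f := χ) h2 h1
  have h5 := HasMFDerivAt.comp y (g := χ.symm) (f := (fun w : V n => w + u w) ∘ χ) h3 h4
  have h6 : Θ =ᶠ[𝓝 y] χ.symm ∘ ((fun w : V n => w + u w) ∘ χ) := by
    filter_upwards [χ.open_source.mem_nhds hy] with z hz
    obtain ⟨a, b⟩ := hΘ z hz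
    simp only [Function.comp_apply]
    rw [← b, χ.left_inv a]
  unfold DN
  rw [h6.mfderiv_eq]
  exact h5.mfderiv

/-- constants for a chart and an immersion -/
theorem chart_consts [T2Space N] {χ : OpenPartialHomeomorph N (V n)} {z : N}
    (hχ : GoodChart n N χ z) {q : ℕ} {e : N → V q} (he : IsImm n e) :
    ∃ L l : ℝ, 1 ≤ L ∧ 0 < l ∧
      (∀ x ∈ χ.source, ∀ y ∈ χ.source, ‖χ x‖ ≤ 1 / 2 → ‖χ y‖ ≤ 1 / 2 →
        ‖e x - e y‖ ≤ L * ‖χ x - χ y‖) ∧
      ∀ x ∈ χ.source, ‖χ x‖ ≤ 1 / 2 → ∀ ξ : V n, l * ‖ξ‖ ≤ ‖DE n e x (Sc χ (χ x) ξ)‖ ∧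
        ‖DE n e x (Sc χ (χ x) ξ)‖ ≤ L * ‖ξ‖ := by
  have hmd := chart_md hχ.mem
  set g : V n → V q := e ∘ χ.symm with hg
  have hgs : ContDiffOn ℝ ∞ g χ.target := by
    have h1 : ContMDiffOn (𝓡 n) (𝓡 q) ∞ g χ.target :=
      he.smooth.comp_contMDiffOn (contMDiffOn_symm_of_mem_maximalAtlas hχ.mem)
    exact contMDiffOn_iff_contDiffOn.1 h1
  have hgd : ∀ v ∈ χ.target, fderiv ℝ g v = (DE n e (χ.symm v)).comp (Sc χ v) := by
    intro v hv
    rw [← mfderiv_eq_fderiv]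
    exact mfderiv_comp v ((he.smooth.mdifferentiable (by simp)) _)
      (hmd.mdifferentiableAt_symm hv)
  have hK : closedBall (0 : V n) (1 / 2) ⊆ χ.target :=
    (closedBall_subset_closedBall (by norm_num)).trans hχ.ball
  have hcont : ContinuousOn (fderiv ℝ g) χ.target :=
    hgs.continuousOn_fderiv_of_isOpen χ.open_target (by simp)
  have hKc : IsCompact (closedBall (0 : V n) (1 / 2)) := isCompact_closedBall _ _
  obtain ⟨L₀, hL₀⟩ := (hKc.image_of_continuousOn (hcont.mono hK)).isBounded.exists_norm_le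
  have hL : ∀ v ∈ closedBall (0 : V n) (1 / 2), ‖fderiv ℝ g v‖ ≤ max L₀ 1 := fun v hv =>
    (hL₀ _ (mem_image_of_mem _ hv)).trans (le_max_left _ _)
  -- the lower bound
  obtain ⟨l, hl0, hl⟩ : ∃ l : ℝ, 0 < l ∧ ∀ v ∈ closedBall (0 : V n) (1 / 2), ∀ ξ : V n,
      l * ‖ξ‖ ≤ ‖fderiv ℝ g v ξ‖ := by
    have hS : IsCompact (closedBall (0 : V n) (1 / 2) ×ˢ sphere (0 : V n) 1) :=
      hKc.prod (isCompact_sphere _ _)
    have hf : ContinuousOn (fun w : V n × V n => ‖fderiv ℝ g w.1 w.2‖)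
        (closedBall (0 : V n) (1 / 2) ×ˢ sphere (0 : V n) 1) := by
      have h1 : ContinuousOn (fun w : V n × V n => fderiv ℝ g w.1)
          (closedBall (0 : V n) (1 / 2) ×ˢ sphere (0 : V n) 1) :=
        (hcont.mono hK).comp continuousOn_fst fun w hw => hw.1
      exact (h1.clm_apply continuousOn_snd).norm
    have hpos : ∀ w ∈ closedBall (0 : V n) (1 / 2) ×ˢ sphere (0 : V n) 1,
        0 < ‖fderiv ℝ g w.1 w.2‖ := by
      rintro ⟨v, ξ⟩ ⟨hv, hξ⟩
      rw [norm_pos_iff]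
      have hvt : v ∈ χ.target := hK hv
      simp only
      rw [hgd v hvt]
      intro h0
      have h1 : Sc χ v ξ = 0 := he.inj _ (by
        rw [map_zero]
        exact h0)
      have h2 := TS hχ.mem (χ.map_target hvt)
      rw [χ.right_inv hvt] at h2
      have h3 := congrArg (fun A : V n →L[ℝ] V n => A ξ) h2
      simp only [ContinuousLinearMap.comp_apply, h1, map_zero, ContinuousLinearMap.id_apply] at h3
      rw [← h3] at hξ
      simp at hξ
    obtain ⟨l, hl0, hl⟩ : ∃ l : ℝ, 0 < l ∧ ∀ w ∈ closedBall (0 : V n) (1 / 2) ×ˢ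
        sphere (0 : V n) 1, l ≤ ‖fderiv ℝ g w.1 w.2‖ := by
      rcases (closedBall (0 : V n) (1 / 2) ×ˢ sphere (0 : V n) 1).eq_empty_or_nonempty with h | h
      · exact ⟨1, one_pos, fun w hw => by rw [h] at hw; exact hw.elim⟩
      · obtain ⟨w, hw, hmin⟩ := hS.exists_isMinOn h hf
        exact ⟨_, hpos w hw, fun w' hw' => hmin hw'⟩
    refine ⟨l, hl0, fun v hv ξ => ?_⟩
    by_cases hξ : ξ = 0
    · rw [hξ]
      simp
    · have hξ' : 0 < ‖ξ‖ := norm_pos_iff.2 hξ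
      have h1 := hl (v, ‖ξ‖⁻¹ • ξ) ⟨hv, by
        rw [mem_sphere_zero_iff_norm, norm_smul, norm_inv, norm_norm, inv_mul_cancel₀ hξ'.ne']⟩
      simp only [map_smul, norm_smul, norm_inv, norm_norm] at h1
      rwa [← div_eq_inv_mul, le_div_iff₀ hξ'] at h1
  refine ⟨max L₀ 1, l, le_max_right _ _, hl0, ?_, ?_⟩
  · intro x hx y hy hx' hy'
    have h1 : ∀ v ∈ closedBall (0 : V n) (1 / 2), DifferentiableAt ℝ g v := fun v hv =>
      ((hgs.contDiffAt (χ.open_target.mem_nhds (hK hv))).differentiableAt (by simp))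
    have h2 := (convex_closedBall (0 : V n) (1 / 2)).norm_image_sub_le_of_norm_fderiv_le h1 hL
      (show χ y ∈ closedBall (0 : V n) (1 / 2) by rwa [mem_closedBall, dist_zero_right])
      (show χ x ∈ closedBall (0 : V n) (1 / 2) by rwa [mem_closedBall, dist_zero_right])
    simpa only [hg, Function.comp_apply, χ.left_inv hx, χ.left_inv hy] using h2
  · intro x hx hx' ξ
    have hv : χ x ∈ closedBall (0 : V n) (1 / 2) := by rwa [mem_closedBall, dist_zero_right]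
    have h1 := hgd (χ x) (χ.map_source hx)
    rw [χ.left_inv hx] at h1
    have h2 : DE n e x (Sc χ (χ x) ξ) = fderiv ℝ g (χ x) ξ := by
      rw [h1]
      rfl
    rw [h2]
    exact ⟨hl _ hv ξ, ((fderiv ℝ g (χ x)).le_opNorm ξ).trans
      (mul_le_mul_of_nonneg_right (hL _ hv) (norm_nonneg _))⟩

end Pool.Agent.K4H47.RH
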