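import Pool.Agent.H74.G.R_pool_sql_team_seeded_c8625f6e.K4H47.RH.Dr

/-!
# Perturbation of the derivative at the points of a finite set
-/

set_option autoImplicit false
set_option linter.unusedSectionVars false

open scoped Manifold ContDiff Topology
open Filter Set Metric

universe u

namespace Pool.Agent.K4H47.RH

open Pool.Agent.H718R2.G Pool.Agent.W564.SC

variable {n : ℕ} {N : Type u} [TopologicalSpace N] [T2Space N] [CompactSpace N]
    [ChartedSpace (V n) N] [IsManifold (𝓡 n) ∞ N]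

/-- near a point outside of the support, a push is the identity -/
theorem push_id_near {r : ℕ∞} {χ : OpenPartialHomeomorph N (V n)} {z : N}
    (hχ : GoodChart n N χ z) {u : V n → V n} {Θ : DiffM n N r} (hΘ : IsPush n N r χ u Θ)
    (hsupp : ∀ x, 1 / 2 ≤ ‖x‖ → u x = 0) {y : N}
    (hy : y ∈ χ.source → ∀ᶠ w in 𝓝 (χ y), u w = 0) : ∀ᶠ x in 𝓝 y, Θ x = x := by
  have hfix : ∀ x ∈ χ.source, u (χ x) = 0 → Θ x = x := by
    intro x hx hux
    obtain ⟨a, b⟩ := hΘ.1 x hx
    rw [hux, add_zero] at b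
    exact χ.injOn a hx b
  by_cases hys : y ∈ χ.source
  · have h1 : ∀ᶠ x in 𝓝 y, u (χ x) = 0 := (χ.continuousAt hys).eventually (hy hys)
    filter_upwards [h1, χ.open_source.mem_nhds hys] with x h2 h3
    exact hfix x h3 h2
  · have hA : closedBall (0 : V n) (1 / 2) ⊆ χ.target :=
      (closedBall_subset_closedBall (by norm_num)).trans hχ.ball
    have hcomp : IsCompact (χ.symm '' closedBall (0 : V n) (1 / 2)) :=
      (isCompact_closedBall _ _).image_of_continuousOn (χ.continuousOn_symm.mono hA)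
    have hyn : y ∉ χ.symm '' closedBall (0 : V n) (1 / 2) := by
      rintro ⟨v, hv, rfl⟩
      exact hys (χ.map_target (hA hv))
    filter_upwards [hcomp.isClosed.isOpen_compl.mem_nhds hyn] with x hx
    by_cases hxs : x ∈ χ.source
    · refine hfix x hxs (hsupp _ ?_)
      by_contra hcon
      push Not at hcon
      refine hx ⟨χ x, ?_, χ.left_inv hxs⟩
      rw [mem_closedBall, dist_zero_right]
      exact hcon.le
    · exact hΘ.2 x hxs

theorem franks_chart {r : ℕ∞} (hr : 1 ≤ r) (F : DiffM n N r)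
    (χ : OpenPartialHomeomorph N (V n)) (z : N) (hχ : GoodChart n N χ z)
    (U : Set (DiffM n N r)) (hU : IsOpen[strongTop n N r] U) (hF : F ∈ U) :
    ∃ U' : Set (DiffM n N r), IsOpen[strongTop n N r] U' ∧ F ∈ U' ∧ ∃ k : ℕ, 1 ≤ k ∧
      (k : ℕ∞) ≤ r ∧ ∀ (q : ℕ) (e : N → V q), IsImm n e → ∃ c : ℝ, 0 < c ∧
        ∀ G ∈ U', ∀ O : Set N, O.Finite → ∀ ρ : N → ℝ, Radii e O ρ →
        ∀ B : N → V n →L[ℝ] V n,
        (∀ x ∈ O, ∀ v, ‖DE n e x (B x v)‖ ≤ c * ρ x ^ (k - 1) * ‖DE n e x v‖) →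
        (∀ x ∈ O, B x ≠ 0 → x ∈ χ.source ∧ ‖χ x‖ < 1 / 4) →
        ∃ G' ∈ U, ∀ x, G x ∈ O → G' x = G x ∧
          DN n G' x = (ContinuousLinearMap.id ℝ (V n) + B (G x)).comp (DN n G x) := by
  classical
  obtain ⟨U', hU', hFU', k, hk1, hkr, κ, hκ, hk⟩ := nbhd_uniform hr F χ z hχ U hU hF
  refine ⟨U', hU', hFU', k, hk1, hkr, fun q e he => ?_⟩
  obtain ⟨L, l, hL1, hl0, hLip, hnorm⟩ := chart_consts hχ he
  obtain ⟨C, hC0, hfield⟩ := field n k hk1
  have hL0 : 0 < L := lt_of_lt_of_le one_pos hL1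
  set κ' : ℝ := min κ (1 / 2) with hκ'
  have hκ'0 : 0 < κ' := lt_min hκ (by norm_num)
  set c : ℝ := κ' * l / (C * L * (4 * L) ^ (k - 1)) with hc
  have hc0 : 0 < c := by positivity
  refine ⟨c, hc0, fun G hG O hO ρ hρ B hB hsupp => ?_⟩
  set W : Set N := {x | x ∈ χ.source ∧ ‖χ x‖ < 1 / 4} with hW
  have hOW : (O ∩ W).Finite := hO.subset inter_subset_left
  set P : Finset (V n) := hOW.toFinset.image χ with hP
  have hPmem : ∀ v, v ∈ P ↔ ∃ x ∈ O, x ∈ W ∧ χ x = v := by
    intro v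
    simp only [hP, Finset.mem_image, Set.Finite.mem_toFinset, mem_inter_iff, and_assoc]
  -- separation
  have hsep : ∀ x ∈ O, x ∈ W → ∀ y ∈ O, y ∈ χ.source → x ≠ y → ρ x / (4 * L) ≤ ‖χ x - χ y‖ := by
    intro x hx hxW y hy hyχ hxy
    by_cases h : ‖χ x - χ y‖ < 1 / 4
    · have h1 : ‖χ y‖ ≤ 1 / 2 := by
        have h2 := norm_sub_le (χ x) (χ x - χ y)
        rw [sub_sub_cancel] at h2
        linarith [hxW.2]
      have h2 := hLip x hxW.1 y hyχ (by linarith [hxW.2]) h1
      have h3 := hρ.sep x hx y hy hxy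
      rw [div_le_iff₀ (by positivity)]
      nlinarith [norm_nonneg (χ x - χ y)]
    · push Not at h
      rw [div_le_iff₀ (by positivity)]
      have := hρ.le_one x hx
      nlinarith
  set rr : V n → ℝ := fun v => ρ (χ.symm v) / (4 * L) with hrr
  set BB : V n → V n →L[ℝ] V n := fun v =>
    (Tc χ (χ.symm v)).comp ((B (χ.symm v)).comp (Sc χ v)) with hBB
  set ε : ℝ := κ' / C with hε
  have hε0 : 0 < ε := by positivity
  obtain ⟨u, hu, hunear, hufar⟩ := hfield P rr BB ε hε0.le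
    (by
      intro v hv
      obtain ⟨x, hx, hxW, rfl⟩ := (hPmem v).1 hv
      simp only [hrr, χ.left_inv hxW.1]
      refine ⟨div_pos (hρ.pos x hx) (by positivity), ?_⟩
      rw [div_le_one (by positivity)]
      have := hρ.le_one x hx
      linarith)
    (by
      intro v hv
      obtain ⟨x, hx, hxW, rfl⟩ := (hPmem v).1 hv
      exact hxW.2.le)
    (by
      intro v hv w hw hvw
      obtain ⟨x, hx, hxW, rfl⟩ := (hPmem v).1 hv
      obtain ⟨y, hy, hyW, rfl⟩ := (hPmem w).1 hw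
      simp only [hrr, χ.left_inv hxW.1]
      exact hsep x hx hxW y hy hyW.1 (fun h => hvw (by rw [h])))
    (by
      intro v hv
      obtain ⟨x, hx, hxW, rfl⟩ := (hPmem v).1 hv
      simp only [hrr, hBB, χ.left_inv hxW.1]
      have hρ0 := hρ.pos x hx
      refine ContinuousLinearMap.opNorm_le_bound _ (by positivity) fun ξ => ?_
      have h1 := (hnorm x hxW.1 (by linarith [hxW.2])
        (((Tc χ x).comp ((B x).comp (Sc χ (χ x)))) ξ)).1
      have h2 : DE n e x (Sc χ (χ x) (((Tc χ x).comp ((B x).comp (Sc χ (χ x)))) ξ)) =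
          DE n e x (B x (Sc χ (χ x) ξ)) := by
        have h3 := congrArg (fun A : V n →L[ℝ] V n => A (B x (Sc χ (χ x) ξ))) (ST hχ.mem hxW.1)
        simp only [ContinuousLinearMap.comp_apply, ContinuousLinearMap.id_apply] at h3
        simp only [ContinuousLinearMap.comp_apply, h3]
      rw [h2] at h1
      have h4 := hB x hx (Sc χ (χ x) ξ)
      have h5 := (hnorm x hxW.1 (by linarith [hxW.2]) ξ).2
      have h6 : l * ‖((Tc χ x).comp ((B x).comp (Sc χ (χ x)))) ξ‖ ≤
          c * ρ x ^ (k - 1) * (L * ‖ξ‖) :=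
        h1.trans (h4.trans (mul_le_mul_of_nonneg_left h5 (by positivity)))
      have h7 : c * ρ x ^ (k - 1) * (L * ‖ξ‖) =
          l * (ε * (ρ x / (4 * L)) ^ (k - 1) * ‖ξ‖) := by
        rw [hc, hε, div_pow]
        field_simp
      rw [h7] at h6
      exact le_of_mul_le_mul_left h6 hl0)
  have hCε : C * ε = κ' := by
    rw [hε]
    field_simp
  rw [hCε] at hu
  obtain ⟨Θ, hΘ⟩ := Pool.Agent.W428.SC.push n N r χ z hχ u
    (Pool.Agent.W923.SC.small_mono hu hk1 (min_le_right _ _))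
  refine ⟨G.trans Θ, hk G hG u Θ (Pool.Agent.W923.SC.small_mono hu le_rfl (min_le_left _ _)) hΘ,
    ?_⟩
  -- the push at the points of `O`
  have hmain : ∀ y ∈ O, Θ y = y ∧ DN n Θ y = ContinuousLinearMap.id ℝ (V n) + B y := by
    intro y hy
    by_cases hyW : y ∈ W
    · have hyP : χ y ∈ P := (hPmem _).2 ⟨y, hy, hyW, rfl⟩
      have hr0 : 0 < rr (χ y) := by
        simp only [hrr, χ.left_inv hyW.1]
        exact div_pos (hρ.pos y hy) (by positivity)
      have h0 : u (χ y) = 0 := by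
        rw [hunear _ hyP (χ y) (by rw [sub_self, norm_zero]; positivity), sub_self, map_zero]
      have hnear : u =ᶠ[𝓝 (χ y)] fun w => BB (χ y) (w - χ y) := by
        have h1 : Continuous fun w : V n => ‖w - χ y‖ := by fun_prop
        have h2 : ‖χ y - χ y‖ < rr (χ y) / 8 := by
          rw [sub_self, norm_zero]
          positivity
        filter_upwards [h1.continuousAt.eventually (gt_mem_nhds h2)] with w hw
        exact hunear _ hyP w hw.le
      have hder : HasFDerivAt u (BB (χ y)) (χ y) := by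
        have h1 : HasFDerivAt (fun w => BB (χ y) (w - χ y)) (BB (χ y)) (χ y) :=
          (BB (χ y)).hasFDerivAt.comp (χ y) ((hasFDerivAt_id (χ y)).sub_const (χ y))
        exact h1.congr_of_eventuallyEq hnear
      have hfix : Θ y = y := by
        obtain ⟨a, b⟩ := hΘ.1 y hyW.1
        rw [h0, add_zero] at b
        exact χ.injOn a hyW.1 b
      refine ⟨hfix, ?_⟩
      rw [DN_push hχ.mem hΘ.1 hyW.1 h0 hder]
      have hST := ST hχ.mem hyW.1
      ext1 ξ
      have h1 := fun w : V n => congrArg (fun A : V n →L[ℝ] V n => A w) hST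
      simp only [ContinuousLinearMap.comp_apply, ContinuousLinearMap.id_apply] at h1
      simp only [hBB, χ.left_inv hyW.1, ContinuousLinearMap.comp_apply, add_apply,
        ContinuousLinearMap.id_apply, map_add, h1]
    · have hB0 : B y = 0 := by
        by_contra hne
        exact hyW (hsupp y hy hne)
      have hid : ∀ᶠ x in 𝓝 y, Θ x = x := by
        refine push_id_near hχ hΘ hu.supp fun hys => ?_
        have h1 : ∀ᶠ w in 𝓝 (χ y), ∀ v ∈ P, rr v / 4 ≤ ‖w - v‖ := by
          rw [Filter.eventually_all_finset]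
          intro v hv
          obtain ⟨x, hx, hxW, rfl⟩ := (hPmem v).1 hv
          have h2 : Continuous fun w : V n => ‖w - χ x‖ := by fun_prop
          have h3 : rr (χ x) / 4 < ‖χ y - χ x‖ := by
            have h4 := hsep x hx hxW y hy hys (fun h => hyW (h ▸ hxW))
            rw [norm_sub_rev] at h4
            simp only [hrr, χ.left_inv hxW.1]
            have h5 : 0 < ρ x / (4 * L) := div_pos (hρ.pos x hx) (by positivity)
            linarith
          exact (h2.continuousAt.eventually (lt_mem_nhds h3)).mono fun w hw => le_of_lt hw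
        filter_upwards [h1] with w hw
        exact hufar w hw
      refine ⟨hid.self_of_nhds, ?_⟩
      rw [DN_id_near hid, hB0, add_zero]
  intro x hx
  obtain ⟨h1, h2⟩ := hmain (G x) hx
  refine ⟨h1, ?_⟩
  rw [DN_trans hr, h2]

/-- `C^r` Franks lemma with a bound depending on the distances between the points. -/
theorem franks {r : ℕ∞} (hr : 1 ≤ r) (F : DiffM n N r)
    (U : Set (DiffM n N r)) (hU : IsOpen[strongTop n N r] U) (hF : F ∈ U) :
    ∃ U' : Set (DiffM n N r), IsOpen[strongTop n N r] U' ∧ F ∈ U' ∧ ∃ k : ℕ, 1 ≤ k ∧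
      (k : ℕ∞) ≤ r ∧ ∀ (q : ℕ) (e : N → V q), IsImm n e → ∃ c : ℝ, 0 < c ∧
        ∀ G ∈ U', ∀ O : Set N, O.Finite → ∀ ρ : N → ℝ, Radii e O ρ →
        ∀ B : N → V n →L[ℝ] V n,
        (∀ x ∈ O, ∀ v, ‖DE n e x (B x v)‖ ≤ c * ρ x ^ (k - 1) * ‖DE n e x v‖) →
        ∃ G' ∈ U, ∀ x, G x ∈ O → G' x = G x ∧
          DN n G' x = (ContinuousLinearMap.id ℝ (V n) + B (G x)).comp (DN n G x) := by
  classical
  choose χ hχ using fun z : N => Pool.Agent.W699.SC.gc n N z
  have hWn : ∀ z : N, {x | x ∈ (χ z).source ∧ ‖χ z x‖ < 1 / 4} ∈ 𝓝 z := by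
    intro z
    have h1 : ContinuousAt (fun x => ‖χ z x‖) z := ((χ z).continuousAt (hχ z).src).norm
    have h2 : ‖χ z z‖ < 1 / 4 := by
      rw [(hχ z).zero, norm_zero]
      norm_num
    filter_upwards [(χ z).open_source.mem_nhds (hχ z).src, h1.eventually (gt_mem_nhds h2)]
      with x h3 h4
    exact ⟨h3, h4⟩
  obtain ⟨T, -, hT⟩ := isCompact_univ.elim_nhds_subcover (U := fun z : N =>
    {x | x ∈ (χ z).source ∧ ‖χ z x‖ < 1 / 4}) (fun z _ => hWn z)
  have key : ∀ T : Finset N, ∀ U : Set (DiffM n N r), IsOpen[strongTop n N r] U → F ∈ U →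
    ∃ U' : Set (DiffM n N r), IsOpen[strongTop n N r] U' ∧ F ∈ U' ∧ ∃ k : ℕ, 1 ≤ k ∧
      (k : ℕ∞) ≤ r ∧ ∀ (q : ℕ) (e : N → V q), IsImm n e → ∃ c : ℝ, 0 < c ∧
        ∀ G ∈ U', ∀ O : Set N, O.Finite → ∀ ρ : N → ℝ, Radii e O ρ →
        ∀ B : N → V n →L[ℝ] V n,
        (∀ x ∈ O, ∀ v, ‖DE n e x (B x v)‖ ≤ c * ρ x ^ (k - 1) * ‖DE n e x v‖) →
        (∀ x ∈ O, B x ≠ 0 → ∃ z ∈ T, x ∈ (χ z).source ∧ ‖χ z x‖ < 1 / 4) →
        ∃ G' ∈ U, ∀ x, G x ∈ O → G' x = G x ∧
          DN n G' x = (ContinuousLinearMap.id ℝ (V n) + B (G x)).comp (DN n G x) := by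
    intro T
    induction T using Finset.induction_on with
    | empty =>
      intro U hU hFU
      refine ⟨U, hU, hFU, 1, le_rfl, by exact_mod_cast hr, fun q e _ => ⟨1, one_pos, ?_⟩⟩
      intro G hG O _ ρ _ B _ hsupp
      refine ⟨G, hG, fun x hx => ⟨rfl, ?_⟩⟩
      have hB0 : B (G x) = 0 := by
        by_contra hne
        obtain ⟨z, hz, -⟩ := hsupp _ hx hne
        simp at hz
      rw [hB0, add_zero, ContinuousLinearMap.id_comp]
    | insert a T ha ih =>
      intro U hU hFU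
      obtain ⟨U₁, hU₁, hFU₁, k₁, hk₁, hkr₁, h₁⟩ := franks_chart hr F (χ a) a (hχ a) U hU hFU
      obtain ⟨U₂, hU₂, hFU₂, k₂, hk₂, hkr₂, h₂⟩ := ih U₁ hU₁ hFU₁
      refine ⟨U₂, hU₂, hFU₂, max k₁ k₂, le_max_of_le_left hk₁, ?_, fun q e he => ?_⟩
      · rcases max_choice k₁ k₂ with hm | hm <;> rw [hm] <;> assumption
      obtain ⟨c₁, hc₁, h₁⟩ := h₁ q e he
      obtain ⟨c₂, hc₂, h₂⟩ := h₂ q e he
      refine ⟨min c₁ c₂, lt_min hc₁ hc₂, fun G hG O hO ρ hρ B hB hsupp => ?_⟩
      set W : Set N := {x | x ∈ (χ a).source ∧ ‖χ a x‖ < 1 / 4} with hW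
      set B₁ : N → V n →L[ℝ] V n := fun x => if x ∈ W then B x else 0 with hB₁
      set B₂ : N → V n →L[ℝ] V n := fun x => if x ∈ W then 0 else B x with hB₂
      have hcost : ∀ x ∈ O, ∀ v, min c₁ c₂ * ρ x ^ (max k₁ k₂ - 1) * ‖DE n e x v‖ ≤
          c₁ * ρ x ^ (k₁ - 1) * ‖DE n e x v‖ ∧
          min c₁ c₂ * ρ x ^ (max k₁ k₂ - 1) * ‖DE n e x v‖ ≤
          c₂ * ρ x ^ (k₂ - 1) * ‖DE n e x v‖ := by
        intro x hx v
        have hp := hρ.pos x hx
        have h1 := hρ.le_one x hx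
        constructor
        · refine mul_le_mul_of_nonneg_right ?_ (norm_nonneg _)
          exact mul_le_mul (min_le_left _ _) (pow_le_pow_of_le_one hp.le h1
            (Nat.sub_le_sub_right (le_max_left _ _) 1)) (by positivity) hc₁.le
        · refine mul_le_mul_of_nonneg_right ?_ (norm_nonneg _)
          exact mul_le_mul (min_le_right _ _) (pow_le_pow_of_le_one hp.le h1
            (Nat.sub_le_sub_right (le_max_right _ _) 1)) (by positivity) hc₂.le
      obtain ⟨G₁, hG₁, hd₁⟩ := h₂ G hG O hO ρ hρ B₂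
        (by
          intro x hx v
          by_cases hxW : x ∈ W
          · simp only [hB₂, if_pos hxW, zero_apply, map_zero, norm_zero]
            have hp := hρ.pos x hx
            positivity
          · simp only [hB₂, if_neg hxW]
            exact (hB x hx v).trans (hcost x hx v).2)
        (by
          intro x hx hne
          by_cases hxW : x ∈ W
          · simp only [hB₂, if_pos hxW, ne_eq, not_true_eq_false] at hne
          · simp only [hB₂, if_neg hxW] at hne
            obtain ⟨z, hz, hzx⟩ := hsupp x hx hne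
            rcases Finset.mem_insert.1 hz with rfl | hz
            · exact absurd hzx hxW
            · exact ⟨z, hz, hzx⟩)
      obtain ⟨G₂, hG₂, hd₂⟩ := h₁ G₁ hG₁ O hO ρ hρ B₁
        (by
          intro x hx v
          by_cases hxW : x ∈ W
          · simp only [hB₁, if_pos hxW]
            exact (hB x hx v).trans (hcost x hx v).1
          · simp only [hB₁, if_neg hxW, zero_apply, map_zero, norm_zero]
            have hp := hρ.pos x hx
            positivity)
        (by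
          intro x hx hne
          by_cases hxW : x ∈ W
          · exact hxW
          · simp only [hB₁, if_neg hxW, ne_eq, not_true_eq_false] at hne)
      refine ⟨G₂, hG₂, fun x hx => ?_⟩
      obtain ⟨e1, e2⟩ := hd₁ x hx
      have hx₁ : G₁ x ∈ O := by rw [e1]; exact hx
      obtain ⟨e3, e4⟩ := hd₂ x hx₁
      refine ⟨e3.trans e1, ?_⟩
      rw [e4, e2, e1, ← ContinuousLinearMap.comp_assoc]
      congr 1
      by_cases hxW : G x ∈ W
      · simp only [hB₁, hB₂, if_pos hxW, add_zero]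
        rfl
      · simp only [hB₁, hB₂, if_neg hxW, add_zero]
        rfl
  obtain ⟨U', hU', hFU', k, hk1, hkr, h⟩ := key T U hU hF
  refine ⟨U', hU', hFU', k, hk1, hkr, fun q e he => ?_⟩
  obtain ⟨c, hc, h⟩ := h q e he
  refine ⟨c, hc, fun G hG O hO ρ hρ B hB => h G hG O hO ρ hρ B hB fun x _ _ => ?_⟩
  obtain ⟨z, hz, hz'⟩ := Set.mem_iUnion₂.1 (hT (mem_univ x))
  exact ⟨z, hz, hz'⟩

end Pool.Agent.K4H47.RH
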